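import Pool.Agent.RLog.Defs

/-!
# Cycles of length four and regularity

Paper proofs. `u = #U`, `K = Kc G c` symmetric. `(∑_(x ∈ A) ∑_(y ∈ B) K)² ≤ #A ∑_(x ∈ A) (∑_(y ∈ B) K(x,y))² ≤ u ∑_(x ∈ U) (∑_(y ∈ B) K(x,y))² =
u ∑_(y, t ∈ B) ∑_(x ∈ U) K(x,y) K(x,t)`, and the square of the last double sum is at most `#B² ∑_(y, t ∈ U) (∑_(x ∈ U) K(x,y) K(x,t))² ≤ u² C4`
(symmetry of `K`): `c4_cut`. `reg_of_c4`: `|∑_(A × B) K| ≤ (ε³/2) u²` for all `A, B ⊆ U`, so for `#A, #B ≥ ε u`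
`|d(A,B) - c| ≤ ε/2` (`sum_Kc`), also for `A = B = U`.
-/

set_option autoImplicit false
set_option linter.unusedSectionVars false

namespace Pool.Agent.RLog

open Finset

variable {V : Type} [Fintype V] [DecidableEq V] (G : SimpleGraph V) [DecidableRel G.Adj]

theorem c4_cut (c : ℝ) {U A B : Finset V} (hA : A ⊆ U) (hB : B ⊆ U) :
    (∑ x ∈ A, ∑ y ∈ B, Kc G c x y) ^ 4 ≤ (U.card : ℝ) ^ 4 * C4 G c U := by
  have hAc : (A.card : ℝ) ≤ U.card := by exact_mod_cast card_le_card hA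
  have hBc : (B.card : ℝ) ≤ U.card := by exact_mod_cast card_le_card hB
  set f : V → ℝ := fun x => ∑ y ∈ B, Kc G c x y with hf
  set W : V → V → ℝ := fun y t => ∑ x ∈ U, Kc G c y x * Kc G c t x with hW
  have h1 : (∑ x ∈ A, f x) ^ 2 ≤ (U.card : ℝ) * ∑ x ∈ U, f x ^ 2 := by
    have e1 : (∑ x ∈ A, f x) ^ 2 ≤ (A.card : ℝ) * ∑ x ∈ A, f x ^ 2 := sq_sum_le_card_mul_sum_sq
    have e2 : ∑ x ∈ A, f x ^ 2 ≤ ∑ x ∈ U, f x ^ 2 :=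
      sum_le_sum_of_subset_of_nonneg hA fun _ _ _ => sq_nonneg _
    have e3 : 0 ≤ ∑ x ∈ A, f x ^ 2 := sum_nonneg fun _ _ => sq_nonneg _
    exact e1.trans (mul_le_mul hAc e2 e3 (by positivity))
  have h2 : ∑ x ∈ U, f x ^ 2 = ∑ y ∈ B, ∑ t ∈ B, W y t := by
    have e1 : ∀ x ∈ U, f x ^ 2 = ∑ y ∈ B, ∑ t ∈ B, Kc G c y x * Kc G c t x := by
      intro x _
      simp only [hf]
      rw [sq, sum_mul_sum]
      refine sum_congr rfl fun y _ => sum_congr rfl fun t _ => ?_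
      rw [Kc_symm G c x y, Kc_symm G c x t]
    rw [sum_congr rfl e1, sum_comm]
    refine sum_congr rfl fun y _ => ?_
    rw [sum_comm]
  have h3 : (∑ y ∈ B, ∑ t ∈ B, W y t) ^ 2 ≤ (U.card : ℝ) ^ 2 * C4 G c U := by
    have e1 : (∑ y ∈ B, ∑ t ∈ B, W y t) ^ 2 ≤ (B.card : ℝ) * ∑ y ∈ B, (∑ t ∈ B, W y t) ^ 2 :=
      sq_sum_le_card_mul_sum_sq
    have e2 : ∀ y ∈ B, (∑ t ∈ B, W y t) ^ 2 ≤ (U.card : ℝ) * ∑ t ∈ U, W y t ^ 2 := by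
      intro y _
      have e3 : (∑ t ∈ B, W y t) ^ 2 ≤ (B.card : ℝ) * ∑ t ∈ B, W y t ^ 2 :=
        sq_sum_le_card_mul_sum_sq
      have e4 : ∑ t ∈ B, W y t ^ 2 ≤ ∑ t ∈ U, W y t ^ 2 :=
        sum_le_sum_of_subset_of_nonneg hB fun _ _ _ => sq_nonneg _
      exact e3.trans (mul_le_mul hBc e4 (sum_nonneg fun _ _ => sq_nonneg _) (by positivity))
    have e5 : ∑ y ∈ B, (∑ t ∈ B, W y t) ^ 2 ≤ (U.card : ℝ) * C4 G c U := by
      refine (sum_le_sum e2).trans ?_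
      rw [← mul_sum]
      refine mul_le_mul_of_nonneg_left ?_ (by positivity)
      exact sum_le_sum_of_subset_of_nonneg hB fun _ _ _ => sum_nonneg fun _ _ => sq_nonneg _
    have e6 : 0 ≤ ∑ y ∈ B, (∑ t ∈ B, W y t) ^ 2 := sum_nonneg fun _ _ => sq_nonneg _
    refine e1.trans ((mul_le_mul hBc e5 e6 (by positivity)).trans (le_of_eq ?_))
    ring
  have h4 : (∑ x ∈ A, ∑ y ∈ B, Kc G c x y) ^ 4 = ((∑ x ∈ A, f x) ^ 2) ^ 2 := by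
    simp only [hf]
    ring
  rw [h4]
  calc ((∑ x ∈ A, f x) ^ 2) ^ 2 ≤ ((U.card : ℝ) * ∑ x ∈ U, f x ^ 2) ^ 2 := by gcongr
    _ = (U.card : ℝ) ^ 2 * (∑ y ∈ B, ∑ t ∈ B, W y t) ^ 2 := by rw [h2]; ring
    _ ≤ (U.card : ℝ) ^ 2 * ((U.card : ℝ) ^ 2 * C4 G c U) := by gcongr
    _ = _ := by ring

theorem reg_of_c4 {c : ℝ} {U : Finset V} (hU : U.Nonempty) {ε : ℝ} (hε : 0 < ε) (hε1 : ε ≤ 1)
    (h : C4 G c U ≤ ε ^ 12 / 16 * (U.card : ℝ) ^ 4) : Reg G ε U := by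
  have hu : (0 : ℝ) < U.card := by exact_mod_cast hU.card_pos
  have key : ∀ X ⊆ U, ∀ Y ⊆ U, ε * (U.card : ℝ) ≤ X.card → ε * (U.card : ℝ) ≤ Y.card →
      |(G.edgeDensity X Y : ℝ) - c| ≤ ε / 2 := by
    intro X hX Y hY hX1 hY1
    have h1 := c4_cut G c hX hY
    have h2 : |∑ x ∈ X, ∑ y ∈ Y, Kc G c x y| ≤ ε ^ 3 / 2 * (U.card : ℝ) ^ 2 := by
      have h3 : |∑ x ∈ X, ∑ y ∈ Y, Kc G c x y| ^ 4 ≤ (ε ^ 3 / 2 * (U.card : ℝ) ^ 2) ^ 4 := by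
        have e1 : |∑ x ∈ X, ∑ y ∈ Y, Kc G c x y| ^ 4 = (∑ x ∈ X, ∑ y ∈ Y, Kc G c x y) ^ 4 :=
          (show Even 4 by decide).pow_abs _
        rw [e1]
        refine h1.trans ?_
        calc (U.card : ℝ) ^ 4 * C4 G c U
            ≤ (U.card : ℝ) ^ 4 * (ε ^ 12 / 16 * (U.card : ℝ) ^ 4) := by gcongr
          _ = _ := by ring
      exact (pow_le_pow_iff_left₀ (abs_nonneg _) (by positivity) (by norm_num)).1 h3
    have hXp : 0 < (X.card : ℝ) := lt_of_lt_of_le (mul_pos hε hu) hX1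
    have hYp : 0 < (Y.card : ℝ) := lt_of_lt_of_le (mul_pos hε hu) hY1
    rw [sum_Kc, abs_mul, abs_of_pos (mul_pos hXp hYp)] at h2
    have h4 : ε ^ 3 / 2 * (U.card : ℝ) ^ 2 ≤ ε / 2 * ((X.card : ℝ) * Y.card) := by
      calc ε ^ 3 / 2 * (U.card : ℝ) ^ 2
          = ε / 2 * ((ε * (U.card : ℝ)) * (ε * (U.card : ℝ))) := by ring
        _ ≤ _ := by gcongr
    exact le_of_mul_le_mul_right (h2.trans h4) (mul_pos hXp hYp)
  refine ⟨hU, fun X hX Y hY hX1 hY1 => ?_⟩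
  have h1 := key X hX Y hY hX1 hY1
  have h0 : ε * (U.card : ℝ) ≤ U.card := by
    have : ε * (U.card : ℝ) ≤ 1 * U.card := by gcongr
    rwa [one_mul] at this
  have h2 := key U (subset_refl _) U (subset_refl _) h0 h0
  rw [abs_le] at h1 h2 ⊢
  constructor <;> linarith [h1.1, h1.2, h2.1, h2.2]

end Pool.Agent.RLog
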