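import Pool.Agent.RLog.Defs

/-!
# Many regular tuples

`n = card V`. Paper proof. For an injective `φ : Fin N → V` (at least `n^N / 2` of them, as `n ≥ 2 N²`: `∏_(i<N) (1 - i/n) ≥ 1 - N²/n ≥ 1/2`)
the graph `G.comap φ` on `Fin N` has an `ε`-regular set `S_φ`, `#S_φ ≥ T`; its image is `ε`-regular in `G` (edge densities of images
under an injective map). `∑_(S ⊆ Fin N) N^(-#S) = (1 + 1/N)^N ≤ 3` (`Finset.sum_pow_mul_eq_add_pow`, `Real.add_one_le_exp`, or
`one_add_div_pow_le_exp`). If every `S` had less than `n^N N^(-#S) / 6` of the `φ` with `S_φ = S`, there would be less than `n^N/2` injective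
`φ`. So for some `S`, `t = #S ≥ T`, at least `n^N N^(-t) / 6` injective `φ` have `S_φ = S`; the map
`φ ↦ (φ ∘ e, φ restricted to the complement of S)`, `e : Fin t ≃ S`, is injective with values in
`E_t × V^(N-t)`, `E_t` the set on the right-hand side. So `#E_t n^(N-t) ≥ n^N N^(-t) / 6`.
-/

set_option autoImplicit false
set_option linter.unusedSectionVars false

namespace Pool.Agent.RLog

open Finset

variable {V : Type} [Fintype V] [DecidableEq V] (G : SimpleGraph V) [DecidableRel G.Adj]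

private theorem count_dens {W : Type} [Fintype W] [DecidableEq W] (φ : W → V)
    (hφ : Function.Injective φ) (G' : SimpleGraph W) [DecidableRel G'.Adj]
    (hG' : ∀ a b, G'.Adj a b ↔ G.Adj (φ a) (φ b)) (X Y : Finset W) :
    (G.edgeDensity (X.image φ) (Y.image φ) : ℝ) = (G'.edgeDensity X Y : ℝ) := by
  rcases X.eq_empty_or_nonempty with rfl | hX
  · simp
  rcases Y.eq_empty_or_nonempty with rfl | hY
  · simp
  have h1 := sum_Kc G 0 (X.image φ) (Y.image φ)
  have h2 := sum_Kc G' 0 X Y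
  rw [Finset.card_image_of_injective _ hφ, Finset.card_image_of_injective _ hφ,
    Finset.sum_image (fun a _ b _ h => hφ h)] at h1
  have h3 : ∀ x ∈ X, ∑ y ∈ Y.image φ, Kc G 0 (φ x) y = ∑ y ∈ Y, Kc G' 0 x y := by
    intro x _
    rw [Finset.sum_image (fun a _ b _ h => hφ h)]
    refine Finset.sum_congr rfl fun y _ => ?_
    unfold Kc
    simp only [hG' x y]
  rw [Finset.sum_congr rfl h3, h2, sub_zero, sub_zero] at h1
  have h4 : (X.card : ℝ) * Y.card ≠ 0 := by
    have := hX.card_pos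
    have := hY.card_pos
    positivity
  exact (mul_right_cancel₀ h4 h1).symm

private theorem count_reg {W : Type} [Fintype W] [DecidableEq W] (φ : W → V)
    (hφ : Function.Injective φ) (G' : SimpleGraph W) [DecidableRel G'.Adj]
    (hG' : ∀ a b, G'.Adj a b ↔ G.Adj (φ a) (φ b)) {ε : ℝ} {S : Finset W} (h : Reg G' ε S) :
    Reg G ε (S.image φ) := by
  obtain ⟨hne, hreg⟩ := h
  refine ⟨hne.image φ, fun X hX Y hY h1 h2 => ?_⟩
  obtain ⟨X', hX', rfl⟩ := Finset.subset_image_iff.mp hX
  obtain ⟨Y', hY', rfl⟩ := Finset.subset_image_iff.mp hY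
  rw [Finset.card_image_of_injective _ hφ, Finset.card_image_of_injective _ hφ] at h1 h2
  rw [count_dens G φ hφ G' hG', count_dens G φ hφ G' hG']
  exact hreg X' hX' Y' hY' h1 h2

private theorem count_inj {N : ℕ} (hN : 2 ≤ N) (hn : 2 * N ^ 2 ≤ Fintype.card V) :
    (Fintype.card V : ℝ) ^ N / 2 ≤ (Fintype.card (Fin N ↪ V) : ℝ) := by
  set n := Fintype.card V with hndef
  have hn0 : 0 < n := by
    have : 0 < 2 * N ^ 2 := by positivity
    omega
  have hNn : N ≤ n := by nlinarith
  have hnR : (0 : ℝ) < n := by exact_mod_cast hn0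
  have h1 : (n + 1 - N) ^ N ≤ Fintype.card (Fin N ↪ V) := by
    rw [Fintype.card_embedding_eq, Fintype.card_fin, ← hndef]
    exact Nat.pow_sub_le_descFactorial n N
  have h2 : ((n : ℝ) + 1 - N) ^ N ≤ (Fintype.card (Fin N ↪ V) : ℝ) := by
    have : (((n + 1 - N) ^ N : ℕ) : ℝ) ≤ (Fintype.card (Fin N ↪ V) : ℝ) := by exact_mod_cast h1
    rw [Nat.cast_pow, Nat.cast_sub (by omega)] at this
    push_cast at this
    exact this
  refine le_trans ?_ h2
  have hb := one_add_mul_le_pow (a := -((N : ℝ) - 1) / n) (by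
    rw [le_div_iff₀ hnR]
    have : (N : ℝ) ≤ n := by exact_mod_cast hNn
    linarith) N
  have e1 : ((n : ℝ) + 1 - N) ^ N = (n : ℝ) ^ N * (1 + -((N : ℝ) - 1) / n) ^ N := by
    rw [← mul_pow]
    congr 1
    field_simp
    ring
  rw [e1]
  have h3 : (1 : ℝ) / 2 ≤ 1 + N * (-((N : ℝ) - 1) / n) := by
    have h4 : (2 : ℝ) * N ^ 2 ≤ n := by exact_mod_cast hn
    have h5 : (N : ℝ) * (((N : ℝ) - 1) / n) ≤ 1 / 2 := by
      rw [← mul_div_assoc, div_le_div_iff₀ hnR (by norm_num)]
      have : (0 : ℝ) ≤ N := by positivity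
      nlinarith
    have e2 : (N : ℝ) * (-((N : ℝ) - 1) / n) = -((N : ℝ) * (((N : ℝ) - 1) / n)) := by ring
    rw [e2]
    linarith
  calc (n : ℝ) ^ N / 2 = (n : ℝ) ^ N * (1 / 2) := by ring
    _ ≤ (n : ℝ) ^ N * (1 + -((N : ℝ) - 1) / n) ^ N := by
        gcongr
        exact h3.trans hb

private theorem count_sum {N : ℕ} (hN : 2 ≤ N) :
    ∑ S : Finset (Fin N), ((1 : ℝ) / N) ^ S.card ≤ 3 := by
  have h1 := Finset.sum_pow_mul_eq_add_pow ((1 : ℝ) / N) 1 (univ : Finset (Fin N))
  simp only [one_pow, mul_one, Finset.powerset_univ, Finset.card_univ, Fintype.card_fin] at h1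
  rw [h1]
  have hN0 : (0 : ℝ) < N := by positivity
  have h2 : (1 : ℝ) / N + 1 ≤ Real.exp (1 / N) := Real.add_one_le_exp _
  calc ((1 : ℝ) / N + 1) ^ N ≤ Real.exp (1 / N) ^ N := by gcongr
    _ = Real.exp 1 := by
        rw [← Real.exp_nat_mul]
        congr 1
        field_simp
    _ ≤ 3 := by
        have := Real.exp_one_lt_d9
        linarith

open Classical in
theorem count {ε T : ℝ} {N : ℕ} (hN : 2 ≤ N)
    (h : ∀ G' : SimpleGraph (Fin N), ∃ S : Finset (Fin N), Reg G' ε S ∧ T ≤ S.card)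
    (hn : 2 * N ^ 2 ≤ Fintype.card V) :
    ∃ t : ℕ, T ≤ t ∧ t ≤ N ∧ (Fintype.card V : ℝ) ^ t ≤ 6 * (N : ℝ) ^ t *
      ((univ : Finset (Fin t → V)).filter fun x =>
        Function.Injective x ∧ Reg G ε (univ.image x)).card := by
  have hn0 : 0 < Fintype.card V := by
    have : 0 < 2 * N ^ 2 := by positivity
    omega
  have hnR : (0 : ℝ) < Fintype.card V := by exact_mod_cast hn0
  have hNR : (0 : ℝ) < N := by positivity
  choose S hS hT using fun φ : Fin N ↪ V => h (G.comap φ)
  -- the pigeonhole principle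
  have hex : ∃ S₀ : Finset (Fin N), (Fintype.card V : ℝ) ^ N * ((1 : ℝ) / N) ^ S₀.card / 6 ≤
      ((univ.filter fun φ : Fin N ↪ V => S φ = S₀).card : ℝ) := by
    by_contra hcon
    push Not at hcon
    have h1 : ((Fintype.card (Fin N ↪ V) : ℕ) : ℝ) =
        ∑ S₀ : Finset (Fin N), ((univ.filter fun φ : Fin N ↪ V => S φ = S₀).card : ℝ) := by
      have := Finset.card_eq_sum_card_fiberwise (s := (univ : Finset (Fin N ↪ V)))
        (t := (univ : Finset (Finset (Fin N)))) (f := S) (fun _ _ => Finset.mem_coe.mpr (mem_univ _))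
      rw [Finset.card_univ] at this
      exact_mod_cast this
    have h2 : ∑ S₀ : Finset (Fin N), ((univ.filter fun φ : Fin N ↪ V => S φ = S₀).card : ℝ) <
        ∑ S₀ : Finset (Fin N), (Fintype.card V : ℝ) ^ N * ((1 : ℝ) / N) ^ S₀.card / 6 :=
      Finset.sum_lt_sum_of_nonempty univ_nonempty fun S₀ _ => hcon S₀
    have h3 : ∑ S₀ : Finset (Fin N), (Fintype.card V : ℝ) ^ N * ((1 : ℝ) / N) ^ S₀.card / 6 ≤
        (Fintype.card V : ℝ) ^ N / 2 := by
      rw [← Finset.sum_div, ← Finset.mul_sum]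
      have := count_sum hN
      have hp : (0 : ℝ) ≤ (Fintype.card V : ℝ) ^ N := by positivity
      nlinarith
    have h4 := count_inj (V := V) hN hn
    linarith
  obtain ⟨S₀, hS₀⟩ := hex
  have hpos : (0 : ℝ) < (Fintype.card V : ℝ) ^ N * ((1 : ℝ) / N) ^ S₀.card / 6 := by positivity
  have hne : (univ.filter fun φ : Fin N ↪ V => S φ = S₀).Nonempty := by
    rw [← Finset.card_pos]
    exact_mod_cast hpos.trans_le hS₀
  obtain ⟨φ₀, hφ₀⟩ := hne
  rw [Finset.mem_filter] at hφ₀
  have htN : S₀.card ≤ N := by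
    have := Finset.card_le_univ S₀
    rwa [Fintype.card_fin] at this
  refine ⟨S₀.card, ?_, htN, ?_⟩
  · have := hT φ₀
    rwa [hφ₀.2] at this
  let e : Fin S₀.card ≃ S₀ := S₀.equivFin.symm
  set E := ((univ : Finset (Fin S₀.card → V)).filter fun x =>
        Function.Injective x ∧ Reg G ε (univ.image x)) with hE
  -- the injection
  have hinj : (univ.filter fun φ : Fin N ↪ V => S φ = S₀).card ≤
      (E ×ˢ (univ : Finset ({i : Fin N // i ∉ S₀} → V))).card := by
    refine Finset.card_le_card_of_injOn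
      (fun φ => ((fun i => φ (e i)), fun i => φ i.1)) ?_ ?_
    · intro φ hφ
      rw [Finset.mem_coe, Finset.mem_filter] at hφ
      rw [Finset.mem_coe, Finset.mem_product]
      refine ⟨?_, mem_univ _⟩
      rw [hE, Finset.mem_filter]
      refine ⟨mem_univ _, ?_, ?_⟩
      · intro i j hij
        exact e.injective (Subtype.ext (φ.injective hij))
      · have h1 : univ.image (fun i => φ (e i)) = S₀.image φ := by
          ext v
          simp only [Finset.mem_image, mem_univ, true_and]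
          constructor
          · rintro ⟨i, rfl⟩
            exact ⟨e i, (e i).2, rfl⟩
          · rintro ⟨a, ha, rfl⟩
            exact ⟨e.symm ⟨a, ha⟩, by rw [Equiv.apply_symm_apply]⟩
        change Reg G ε (univ.image (fun i => φ (e i)))
        rw [h1]
        have h2 := hS φ
        rw [hφ.2] at h2
        exact @count_reg V _ _ G _ (Fin N) _ _ φ φ.injective (G.comap φ)
          (fun a b => propDecidable ((G.comap φ).Adj a b)) (fun a b => Iff.rfl) ε S₀ h2
    · intro φ _ ψ _ hφψ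
      have h1 := congrArg Prod.fst hφψ
      have h2 := congrArg Prod.snd hφψ
      refine DFunLike.ext _ _ fun a => ?_
      by_cases ha : a ∈ S₀
      · have h3 := congrFun h1 (e.symm ⟨a, ha⟩)
        simp only [Equiv.apply_symm_apply] at h3
        exact h3
      · exact congrFun h2 ⟨a, ha⟩
  have hcard : (E ×ˢ (univ : Finset ({i : Fin N // i ∉ S₀} → V))).card =
      E.card * Fintype.card V ^ (N - S₀.card) := by
    rw [Finset.card_product, Finset.card_univ, Fintype.card_fun, Fintype.card_subtype_compl,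
      Fintype.card_fin, Fintype.card_coe]
  rw [hcard] at hinj
  have h5 : (Fintype.card V : ℝ) ^ N * ((1 : ℝ) / N) ^ S₀.card / 6 ≤
      (E.card : ℝ) * (Fintype.card V : ℝ) ^ (N - S₀.card) := by
    refine hS₀.trans ?_
    exact_mod_cast hinj
  have e1 : (Fintype.card V : ℝ) ^ N = (Fintype.card V : ℝ) ^ S₀.card *
      (Fintype.card V : ℝ) ^ (N - S₀.card) := by
    rw [← pow_add]
    congr 1
    omega
  rw [e1, div_pow, one_pow] at h5
  have hp1 : (0 : ℝ) < (Fintype.card V : ℝ) ^ (N - S₀.card) := by positivity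
  have hp2 : (0 : ℝ) < (N : ℝ) ^ S₀.card := by positivity
  have h6 : (Fintype.card V : ℝ) ^ S₀.card * (1 / (N : ℝ) ^ S₀.card) / 6 ≤ E.card := by
    refine le_of_mul_le_mul_right ?_ hp1
    calc (Fintype.card V : ℝ) ^ S₀.card * (1 / (N : ℝ) ^ S₀.card) / 6 *
          (Fintype.card V : ℝ) ^ (N - S₀.card)
        = (Fintype.card V : ℝ) ^ S₀.card * (Fintype.card V : ℝ) ^ (N - S₀.card) *
          (1 / (N : ℝ) ^ S₀.card) / 6 := by ring
      _ ≤ _ := h5
  rw [mul_one_div, div_div, div_le_iff₀ (by positivity)] at h6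
  calc (Fintype.card V : ℝ) ^ S₀.card ≤ E.card * ((N : ℝ) ^ S₀.card * 6) := h6
    _ = 6 * (N : ℝ) ^ S₀.card * E.card := by ring

end Pool.Agent.RLog
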