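import Mathlib

/-!
# MP_b47c0e_co: regular sets and regular samples (helper88)

`Reg G ε U`: the nonempty set `U` is `ε`-regular. `Kc G c x y = 1_(x ~ y) - c`. `C4 G c U`: the sum over
all `x, z, y, t` in `U` of `K(x, y) K(z, y) K(x, t) K(z, t)`.
-/

set_option autoImplicit false
set_option linter.unusedSectionVars false

namespace Pool.Agent.RLog

open Finset

variable {V : Type} [Fintype V] [DecidableEq V]

/-- The nonempty set `U` is `ε`-regular. -/
def Reg (G : SimpleGraph V) [DecidableRel G.Adj] (ε : ℝ) (U : Finset V) : Prop :=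
  U.Nonempty ∧ ∀ X ⊆ U, ∀ Y ⊆ U, ε * (U.card : ℝ) ≤ X.card → ε * (U.card : ℝ) ≤ Y.card →
    |(G.edgeDensity X Y : ℝ) - (G.edgeDensity U U : ℝ)| ≤ ε

/-- The adjacency kernel minus a constant. -/
def Kc (G : SimpleGraph V) [DecidableRel G.Adj] (c : ℝ) (x y : V) : ℝ :=
  (if G.Adj x y then 1 else 0) - c

/-- The sum over the (possibly degenerate) cycles of length four. -/
def C4 (G : SimpleGraph V) [DecidableRel G.Adj] (c : ℝ) (U : Finset V) : ℝ :=
  ∑ x ∈ U, ∑ z ∈ U, (∑ y ∈ U, Kc G c x y * Kc G c z y) ^ 2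

variable (G : SimpleGraph V) [DecidableRel G.Adj]

theorem Kc_symm (c : ℝ) (x y : V) : Kc G c x y = Kc G c y x := by
  unfold Kc
  simp only [G.adj_comm x y]

theorem Kc_abs {c : ℝ} (hc : 0 ≤ c) (hc1 : c ≤ 1) (x y : V) : |Kc G c x y| ≤ 1 := by
  unfold Kc
  split_ifs
  · rw [abs_of_nonneg (by linarith)]
    linarith
  · rw [zero_sub, abs_neg, abs_of_nonneg hc]
    exact hc1

/-- The sum of the kernel over a pair of sets. -/
theorem sum_Kc (c : ℝ) (A B : Finset V) :
    ∑ x ∈ A, ∑ y ∈ B, Kc G c x y = ((G.edgeDensity A B : ℝ) - c) * (A.card * B.card) := by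
  have h1 : ∑ x ∈ A, ∑ y ∈ B, (if G.Adj x y then (1 : ℝ) else 0) =
      ((G.interedges A B).card : ℝ) := by
    rw [SimpleGraph.interedges, Rel.interedges, card_filter, Finset.sum_product]
    push_cast
    rfl
  have h2 : ((G.edgeDensity A B : ℚ) : ℝ) * (A.card * B.card) = ((G.interedges A B).card : ℝ) := by
    rw [SimpleGraph.edgeDensity_def]
    push_cast
    rcases A.eq_empty_or_nonempty with rfl | hA
    · simp
    rcases B.eq_empty_or_nonempty with rfl | hB
    · simp [SimpleGraph.interedges, Rel.interedges]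
    have h3 : (A.card : ℝ) ≠ 0 := by exact_mod_cast hA.card_pos.ne'
    have h4 : (B.card : ℝ) ≠ 0 := by exact_mod_cast hB.card_pos.ne'
    field_simp
  unfold Kc
  simp only [Finset.sum_sub_distrib, Finset.sum_const, nsmul_eq_mul]
  rw [h1, sub_mul, h2]
  ring

/-- The tuples with the same first `k` entries as `s`. -/
def pre {t : ℕ} (E : Finset (Fin t → V)) (k : ℕ) (s : Fin t → V) : Finset (Fin t → V) :=
  E.filter fun x => ∀ i : Fin t, (i : ℕ) < k → x i = s i

end Pool.Agent.RLog
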