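import Pool.Agent.RLog.Defs

/-!
# The easy direction

Paper proof. Let `k = ⌈2 ε^(-C) + 2 ε^(-A) + 4⌉₊`, `N = 2^k`. The hypothesis for a graph on `N` vertices gives
`#U ≥ 2^(k - ε^(-C))`. `k/2 ≥ ε^(-C) + A log₂(1/ε)` (`A log₂(1/ε) ≤ 2^(A log₂ (1/ε)) = ε^(-A)`) and `2^(k/2) ≥ k` for `k ≥ 4`, so
`2^(k - ε^(-C)) ≥ ε^(-A) k = ε^(-A) logb 2 N`. `k ≤ 2 ε^(-C) + 2 ε^(-A) + 5 ≤ 9 ε^(-max C A) ≤ ε^(-(max C A + 4))` as `ε < 1/2`.
-/

set_option autoImplicit false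

namespace Pool.Agent.RLog

private theorem easy_sq {k : ℕ} (hk : 4 ≤ k) : k ^ 2 ≤ 2 ^ k := by
  induction k, hk using Nat.le_induction with
  | base => norm_num
  | succ k hk ih =>
    rw [pow_succ 2 k]
    nlinarith

private theorem easy_half {k : ℕ} (hk : 4 ≤ k) : (k : ℝ) ≤ 2 ^ ((k : ℝ) / 2) := by
  have h1 : ((k ^ 2 : ℕ) : ℝ) ≤ ((2 ^ k : ℕ) : ℝ) := Nat.cast_le.2 (easy_sq hk)
  push_cast at h1
  have h2 : ((2 : ℝ) ^ ((k : ℝ) / 2)) ^ 2 = 2 ^ k := by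
    rw [← Real.rpow_natCast, ← Real.rpow_mul (by norm_num), ← Real.rpow_natCast]
    congr 1
    push_cast
    ring
  rw [← h2] at h1
  exact le_of_sq_le_sq h1 (by positivity)

theorem easy {A C ε : ℝ} (hA : 0 < A) (hC : 0 < C) (hε : 0 < ε) (hε2 : ε < 1 / 2)
    (h : ∀ (n : ℕ) (G : SimpleGraph (Fin n)) [DecidableRel G.Adj], 1 ≤ n →
      ∃ U : Finset (Fin n), Reg G ε U ∧ (2 : ℝ) ^ (-(ε ^ (-C))) * n ≤ U.card) :
    ∃ N : ℕ, 2 ≤ N ∧ (N : ℝ) ≤ 2 ^ (ε ^ (-(max C A + 4))) ∧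
      ∀ (G : SimpleGraph (Fin N)) [DecidableRel G.Adj],
      ∃ U : Finset (Fin N), Reg G ε U ∧ ε ^ (-A) * Real.logb 2 N ≤ U.card := by
  have hε1 : ε ≤ 1 := by linarith
  have ha : 1 ≤ ε ^ (-C) := Real.one_le_rpow_of_pos_of_le_one_of_nonpos hε hε1 (by linarith)
  have hb : 1 ≤ ε ^ (-A) := Real.one_le_rpow_of_pos_of_le_one_of_nonpos hε hε1 (by linarith)
  set a := ε ^ (-C) with hadef
  set b := ε ^ (-A) with hbdef
  have haM : a ≤ ε ^ (-max C A) :=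
    Real.rpow_le_rpow_of_exponent_ge hε hε1 (neg_le_neg (le_max_left C A))
  have hbM : b ≤ ε ^ (-max C A) :=
    Real.rpow_le_rpow_of_exponent_ge hε hε1 (neg_le_neg (le_max_right C A))
  set M := ε ^ (-max C A) with hM
  set k : ℕ := ⌈2 * a + 2 * b + 4⌉₊ with hk
  have hk1 : 2 * a + 2 * b + 4 ≤ (k : ℝ) := Nat.le_ceil _
  have hk2 : (k : ℝ) < 2 * a + 2 * b + 4 + 1 := Nat.ceil_lt_add_one (by linarith)
  have hk4 : 4 ≤ k := by
    have : (4 : ℝ) ≤ (k : ℝ) := by linarith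
    exact_mod_cast this
  have hkM : (k : ℝ) ≤ ε ^ (-(max C A + 4)) := by
    have e1 : ε ^ (-(max C A + 4)) = M * ε ^ (-4 : ℝ) := by
      rw [hM, ← Real.rpow_add hε]
      congr 1
      ring
    have e2 : (16 : ℝ) ≤ ε ^ (-4 : ℝ) := by
      have e3 : ε ^ (4 : ℝ) = ε ^ 4 := by
        rw [← Real.rpow_natCast]
        norm_num
      rw [Real.rpow_neg hε.le, e3]
      have h4 : ε ^ 4 ≤ (1 / 2) ^ 4 := pow_le_pow_left₀ hε.le hε2.le 4
      have h5 : 0 < ε ^ 4 := by positivity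
      rw [le_inv_comm₀ (by norm_num) h5]
      refine h4.trans ?_
      norm_num
    rw [e1]
    have hM1 : 1 ≤ M := ha.trans haM
    nlinarith
  refine ⟨2 ^ k, ?_, ?_, ?_⟩
  · calc 2 = 2 ^ 1 := by norm_num
      _ ≤ 2 ^ k := Nat.pow_le_pow_right (by norm_num) (by omega)
  · push_cast
    rw [← Real.rpow_natCast]
    exact Real.rpow_le_rpow_of_exponent_le (by norm_num) hkM
  · intro G _
    obtain ⟨U, hU, hc⟩ := h (2 ^ k) G Nat.one_le_two_pow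
    refine ⟨U, hU, le_trans ?_ hc⟩
    push_cast
    have e1 : Real.logb 2 (2 ^ k) = k := by
      rw [← Real.rpow_natCast, Real.logb_rpow (by norm_num) (by norm_num)]
    have e2 : (2 : ℝ) ^ (-a) * 2 ^ k = 2 ^ ((k : ℝ) / 2 - a) * 2 ^ ((k : ℝ) / 2) := by
      rw [← Real.rpow_natCast, ← Real.rpow_add (by norm_num), ← Real.rpow_add (by norm_num)]
      congr 1
      ring
    rw [e1, e2]
    have e3 : b ≤ 2 ^ ((k : ℝ) / 2 - a) := by
      have h1 : 1 + b * 1 ≤ (1 + 1 : ℝ) ^ b :=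
        one_add_mul_self_le_rpow_one_add (by norm_num) hb
      have h2 : (1 + 1 : ℝ) ^ b = 2 ^ b := by norm_num
      rw [h2] at h1
      have h3 : (2 : ℝ) ^ b ≤ 2 ^ ((k : ℝ) / 2 - a) :=
        Real.rpow_le_rpow_of_exponent_le (by norm_num) (by linarith)
      linarith
    exact mul_le_mul e3 (easy_half hk4) (Nat.cast_nonneg k) (by positivity)

end Pool.Agent.RLog
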