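import Pool.Agent.RLog.Defs

/-!
# Exchangeability

`E` is a set of `t`-tuples closed under the permutations of the coordinates, `pre E k s` the set of those `x ∈ E` with the
same first `k` entries as `s`.

Paper proofs. `exch_card` and `exch_sum`: for `i ≠ j` with `i, j ≥ k` and `i', j'` likewise there is a permutation `σ` of `Fin t`
with `σ i' = i`, `σ j' = j` fixing all indices `< k` (composition of two swaps of indices `≥ k`), and `x ↦ x ∘ σ` is a
bijection of `pre E k s`. `form_bound`: `∑_(x ∈ pre) ∑_(i ≠ j, i, j ≥ k) 1_B(x i) 1_B'(x j) K(x i, x j) = r (r - 1) S`,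
`r = t - k`, by `exch_sum`. For every `x` the inner sum is `∑_(i ∈ I) ∑_(j ∈ J) K(x i, x j)`, `I = {i ≥ k, x i ∈ B}`,
`J = {j ≥ k, x j ∈ B'}`, minus the diagonal terms, at most `t` in absolute value. `r (r - 1) ≥ t ^ 2 / 4` since `2 k + 4 ≤ t`.
-/

set_option autoImplicit false
set_option linter.unusedSectionVars false

namespace Pool.Agent.RLog

open Finset

variable {V : Type} [Fintype V] [DecidableEq V] (G : SimpleGraph V) [DecidableRel G.Adj]

private theorem exch_sum {t : ℕ} {E : Finset (Fin t → V)}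
    (hsym : ∀ x ∈ E, ∀ σ : Equiv.Perm (Fin t), x ∘ σ ∈ E) (k : ℕ) (s : Fin t → V) {a b : Fin t}
    (ha : k ≤ a) (hb : k ≤ b) (f : (Fin t → V) → ℝ) :
    ∑ x ∈ pre E k s, f (x ∘ Equiv.swap a b) = ∑ x ∈ pre E k s, f x := by
  have h1 : ∀ x ∈ pre E k s, x ∘ Equiv.swap a b ∈ pre E k s := by
    intro x hx
    rw [pre, mem_filter] at hx ⊢
    refine ⟨hsym x hx.1 _, ?_⟩
    intro i hi
    rw [Function.comp_apply, Equiv.swap_apply_of_ne_of_ne]
    · exact hx.2 i hi
    · rintro rfl
      omega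
    · rintro rfl
      omega
  have h2 : ∀ x : Fin t → V, (x ∘ Equiv.swap a b) ∘ Equiv.swap a b = x := by
    intro x
    funext i
    rw [Function.comp_apply, Function.comp_apply, Equiv.swap_apply_self]
  exact Finset.sum_nbij' (fun x => x ∘ Equiv.swap a b) (fun x => x ∘ Equiv.swap a b) h1 h1
    (fun x _ => h2 x) (fun x _ => h2 x) (fun x _ => rfl)

theorem exch_card {t : ℕ} {E : Finset (Fin t → V)} (hsym : ∀ x ∈ E, ∀ σ : Equiv.Perm (Fin t), x ∘ σ ∈ E)
    (k : ℕ) (s : Fin t → V) {i j : Fin t} (hi : k ≤ i) (hj : k ≤ j) (v : V) :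
    ((pre E k s).filter fun x => x i = v).card = ((pre E k s).filter fun x => x j = v).card := by
  have h1 := exch_sum hsym k s hi hj (fun x => if x i = v then 1 else 0)
  simp only [Function.comp_apply, Equiv.swap_apply_left] at h1
  have h2 : (((pre E k s).filter fun x => x j = v).card : ℝ) =
      (((pre E k s).filter fun x => x i = v).card : ℝ) := by
    rw [Finset.card_filter, Finset.card_filter]
    push_cast
    exact h1
  exact_mod_cast h2.symm

private theorem exch_pair {t : ℕ} {E : Finset (Fin t → V)}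
    (hsym : ∀ x ∈ E, ∀ σ : Equiv.Perm (Fin t), x ∘ σ ∈ E) (k : ℕ) (s : Fin t → V)
    {i j i' j' : Fin t} (hi : k ≤ i) (hj : k ≤ j) (hi' : k ≤ i') (hj' : k ≤ j') (hij : i ≠ j)
    (hij' : i' ≠ j') (φ : V → V → ℝ) :
    ∑ x ∈ pre E k s, φ (x i') (x j') = ∑ x ∈ pre E k s, φ (x i) (x j) := by
  have h1 := exch_sum hsym k s hi' hi (fun x => φ (x i') (x j'))
  simp only [Function.comp_apply, Equiv.swap_apply_left] at h1
  rw [← h1]
  obtain ⟨q, hq⟩ : ∃ q, q = Equiv.swap i' i j' := ⟨_, rfl⟩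
  have hqi : i ≠ q := by
    intro h
    have h2 : Equiv.swap i' i j' = Equiv.swap i' i i' := by
      rw [← hq, Equiv.swap_apply_left]
      exact h.symm
    exact hij' ((Equiv.swap i' i).injective h2).symm
  have hqk : k ≤ q := by
    rw [hq, Equiv.swap_apply_def]
    split_ifs
    · exact hi
    · exact hi'
    · exact hj'
  rw [← hq]
  have h3 := exch_sum hsym k s hqk hj (fun x => φ (x i) (x q))
  simp only [Function.comp_apply, Equiv.swap_apply_left,
    Equiv.swap_apply_of_ne_of_ne hqi hij] at h3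
  exact h3.symm

theorem form_bound {t : ℕ} {E : Finset (Fin t → V)} (hsym : ∀ x ∈ E, ∀ σ : Equiv.Perm (Fin t), x ∘ σ ∈ E)
    {c a : ℝ} (hc : 0 ≤ c) (hc1 : c ≤ 1) (ha : 0 ≤ a)
    (hpat : ∀ x ∈ E, ∀ I J : Finset (Fin t), |∑ i ∈ I, ∑ j ∈ J, Kc G c (x i) (x j)| ≤ a)
    {k : ℕ} (hk : 2 * k + 4 ≤ t) (s : Fin t → V) {i j : Fin t} (hi : (i : ℕ) = k)
    (hj : (j : ℕ) = k + 1) (B B' : Finset V) :
    |∑ x ∈ pre E k s, (if x i ∈ B ∧ x j ∈ B' then Kc G c (x i) (x j) else 0)| * (t : ℝ) ^ 2 ≤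
      4 * (a + t) * (pre E k s).card := by
  obtain ⟨φ, hφ⟩ : ∃ φ : V → V → ℝ, φ = fun u v => if u ∈ B ∧ v ∈ B' then Kc G c u v else 0 :=
    ⟨_, rfl⟩
  have hφ' : ∀ u v, φ u v = if u ∈ B ∧ v ∈ B' then Kc G c u v else 0 := by
    intro u v
    rw [hφ]
  simp only [← hφ']
  obtain ⟨S, hS⟩ : ∃ S, S = ∑ x ∈ pre E k s, φ (x i) (x j) := ⟨_, rfl⟩
  rw [← hS]
  obtain ⟨R, hR⟩ : ∃ R : Finset (Fin t), R = univ.filter (fun i : Fin t => k ≤ (i : ℕ)) :=
    ⟨_, rfl⟩
  have hmR : ∀ m, m ∈ R ↔ k ≤ (m : ℕ) := by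
    intro m
    rw [hR, mem_filter]
    exact ⟨fun h => h.2, fun h => ⟨mem_univ _, h⟩⟩
  have hij : i ≠ j := by
    rintro rfl
    omega
  have hcR : t ≤ R.card + k := by
    have h1 := Finset.card_filter_add_card_filter_not (s := (univ : Finset (Fin t)))
      (fun i : Fin t => k ≤ (i : ℕ))
    rw [Finset.card_univ, Fintype.card_fin, ← hR] at h1
    have h2 : (univ.filter (fun i : Fin t => ¬ k ≤ (i : ℕ))).card ≤ k := by
      have h3 := Finset.card_le_card_of_injOn (s := univ.filter (fun i : Fin t => ¬ k ≤ (i : ℕ)))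
        (t := Finset.range k) (fun i : Fin t => (i : ℕ)) (fun m hm => by
          rw [mem_coe, mem_filter] at hm
          rw [mem_coe, mem_range]
          exact not_le.1 hm.2) (fun m _ m' _ h => Fin.ext h)
      rwa [Finset.card_range] at h3
    omega
  have hT : ∑ x ∈ pre E k s, ∑ i' ∈ R, ∑ j' ∈ R, (if i' = j' then 0 else φ (x i') (x j')) =
      (R.card : ℝ) * ((R.card : ℝ) - 1) * S := by
    rw [Finset.sum_comm]
    have h1 : ∀ i' ∈ R, ∑ x ∈ pre E k s, ∑ j' ∈ R, (if i' = j' then 0 else φ (x i') (x j')) =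
        ((R.card : ℝ) - 1) * S := by
      intro i' hi'
      rw [Finset.sum_comm]
      have h2 : ∀ j' ∈ R, ∑ x ∈ pre E k s, (if i' = j' then 0 else φ (x i') (x j')) =
          S - (if i' = j' then S else 0) := by
        intro j' hj'
        by_cases h : i' = j'
        · simp only [if_pos h, Finset.sum_const_zero, sub_self]
        · simp only [if_neg h, sub_zero]
          rw [hS]
          exact exch_pair hsym k s (by omega) (by omega) ((hmR _).1 hi') ((hmR _).1 hj') hij h φ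
      rw [Finset.sum_congr rfl h2, Finset.sum_sub_distrib, Finset.sum_const, Finset.sum_ite_eq,
        if_pos hi', nsmul_eq_mul]
      ring
    rw [Finset.sum_congr rfl h1, Finset.sum_const, nsmul_eq_mul]
    ring
  have hB : ∀ x ∈ pre E k s,
      |∑ i' ∈ R, ∑ j' ∈ R, (if i' = j' then 0 else φ (x i') (x j'))| ≤ a + t := by
    intro x hx
    have hxE : x ∈ E := (mem_filter.1 hx).1
    have h1 : ∑ i' ∈ R, ∑ j' ∈ R, (if i' = j' then 0 else φ (x i') (x j')) =
        ∑ i' ∈ R, ∑ j' ∈ R, φ (x i') (x j') - ∑ i' ∈ R, φ (x i') (x i') := by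
      rw [← Finset.sum_sub_distrib]
      apply Finset.sum_congr rfl
      intro i' hi'
      have h2 : φ (x i') (x i') = ∑ j' ∈ R, (if i' = j' then φ (x i') (x j') else 0) := by
        rw [Finset.sum_ite_eq, if_pos hi']
      rw [h2, ← Finset.sum_sub_distrib]
      apply Finset.sum_congr rfl
      intro j' _
      split_ifs <;> ring
    have h2 : ∑ i' ∈ R, ∑ j' ∈ R, φ (x i') (x j') =
        ∑ i' ∈ R.filter (fun m => x m ∈ B), ∑ j' ∈ R.filter (fun m => x m ∈ B'),
          Kc G c (x i') (x j') := by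
      rw [Finset.sum_filter]
      apply Finset.sum_congr rfl
      intro i' _
      by_cases h : x i' ∈ B
      · rw [if_pos h, Finset.sum_filter]
        apply Finset.sum_congr rfl
        intro j' _
        rw [hφ']
        by_cases h' : x j' ∈ B'
        · rw [if_pos ⟨h, h'⟩, if_pos h']
        · rw [if_neg fun h'' => h' h''.2, if_neg h']
      · rw [if_neg h]
        apply Finset.sum_eq_zero
        intro j' _
        rw [hφ', if_neg fun h'' => h h''.1]
    have h3 : |∑ i' ∈ R, φ (x i') (x i')| ≤ t := by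
      refine (Finset.abs_sum_le_sum_abs _ _).trans ?_
      have h4 : ∀ i' ∈ R, |φ (x i') (x i')| ≤ 1 := by
        intro i' _
        rw [hφ']
        split_ifs
        · exact Kc_abs G hc hc1 _ _
        · rw [abs_zero]
          exact zero_le_one
      refine (Finset.sum_le_card_nsmul _ _ 1 h4).trans ?_
      rw [nsmul_eq_mul, mul_one]
      have h5 := Finset.card_le_univ R
      rw [Fintype.card_fin] at h5
      exact_mod_cast h5
    rw [h1, h2]
    exact (abs_sub _ _).trans (add_le_add (hpat x hxE _ _) h3)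
  have h1 : |(R.card : ℝ) * ((R.card : ℝ) - 1) * S| ≤ (pre E k s).card * (a + t) := by
    rw [← hT]
    refine (Finset.abs_sum_le_sum_abs _ _).trans ?_
    refine (Finset.sum_le_card_nsmul _ _ _ hB).trans ?_
    rw [nsmul_eq_mul]
  have h2 : (t : ℝ) + 4 ≤ 2 * (R.card : ℝ) := by
    have : t + 4 ≤ 2 * R.card := by omega
    exact_mod_cast this
  have ht : (0 : ℝ) ≤ t := Nat.cast_nonneg t
  have h3 : (t : ℝ) ^ 2 ≤ 4 * ((R.card : ℝ) * ((R.card : ℝ) - 1)) := by nlinarith
  rw [abs_mul, abs_of_nonneg (by nlinarith : (0 : ℝ) ≤ (R.card : ℝ) * ((R.card : ℝ) - 1))] at h1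
  have h4 := mul_le_mul_of_nonneg_left h3 (abs_nonneg S)
  linarith

end Pool.Agent.RLog
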