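import Mathlib

/-!
# Relative entropy and large values

Paper proofs. `x log x ≥ x - 1` for `x ≥ 0` (`x = n ν v`): `ν v log (n ν v) ≥ ν v - 1 / n`, the sum over all `v` is `≥ 0`: `gibbs`.
`trunc`: on `{n ν v > e^K}` `ν v log (n ν v) ≥ K ν v`, on the complement `ν v log (n ν v) ≥ ν v - 1/n ≥ - 1/n`; so
`D ≥ K ν(big) - 1`.
-/

set_option autoImplicit false

namespace Pool.Agent.RLog

open Finset

private theorem point_le {n a : ℝ} (hn : 0 < n) (ha : 0 ≤ a) : a - 1 / n ≤ a * Real.log (n * a) := by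
  rcases ha.eq_or_lt with rfl | ha
  · rw [zero_mul, zero_sub, neg_nonpos]
    positivity
  · have h1 : 1 - (n * a)⁻¹ ≤ Real.log (n * a) := Real.one_sub_inv_le_log_of_pos (mul_pos hn ha)
    have h2 := mul_le_mul_of_nonneg_left h1 ha.le
    have h3 : a * (1 - (n * a)⁻¹) = a - 1 / n := by
      field_simp
    linarith

private theorem card_pos_of {V : Type} [Fintype V] {ν : V → ℝ} (h1 : ∑ v, ν v = 1) :
    (0 : ℝ) < Fintype.card V := by
  have h : Nonempty V := by
    by_contra hc
    rw [not_nonempty_iff] at hc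
    rw [Finset.univ_eq_empty, Finset.sum_empty] at h1
    exact zero_ne_one h1
  exact_mod_cast Fintype.card_pos

theorem gibbs {V : Type} [Fintype V] {ν : V → ℝ} (h0 : ∀ v, 0 ≤ ν v) (h1 : ∑ v, ν v = 1) :
    0 ≤ ∑ v, ν v * Real.log (Fintype.card V * ν v) := by
  have hn := card_pos_of h1
  calc (0 : ℝ) = ∑ v, (ν v - 1 / (Fintype.card V : ℝ)) := by
        rw [Finset.sum_sub_distrib, h1, Finset.sum_const, Finset.card_univ, nsmul_eq_mul,
          mul_one_div_cancel hn.ne', sub_self]
    _ ≤ ∑ v, ν v * Real.log (Fintype.card V * ν v) :=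
        Finset.sum_le_sum fun v _ => point_le hn (h0 v)

open Classical in
theorem trunc {V : Type} [Fintype V] {ν : V → ℝ} (h0 : ∀ v, 0 ≤ ν v) (h1 : ∑ v, ν v = 1) {D K : ℝ}
    (hK : 0 < K) (hD : ∑ v, ν v * Real.log (Fintype.card V * ν v) ≤ D) :
    ∑ v with Real.exp K < Fintype.card V * ν v, ν v ≤ (D + 1) / K := by
  have hn := card_pos_of h1
  have h2 := Finset.sum_filter_add_sum_filter_not (Finset.univ : Finset V)
    (fun v => Real.exp K < Fintype.card V * ν v)
    (fun v => ν v * Real.log (Fintype.card V * ν v))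
  have h3 : K * ∑ v with Real.exp K < Fintype.card V * ν v, ν v ≤
      ∑ v with Real.exp K < Fintype.card V * ν v, ν v * Real.log (Fintype.card V * ν v) := by
    rw [Finset.mul_sum]
    refine Finset.sum_le_sum fun v hv => ?_
    rw [Finset.mem_filter] at hv
    have h4 : K < Real.log (Fintype.card V * ν v) :=
      (Real.lt_log_iff_exp_lt ((Real.exp_pos K).trans hv.2)).2 hv.2
    have h5 := mul_le_mul_of_nonneg_left h4.le (h0 v)
    linarith
  have h4 : (-1 : ℝ) ≤ ∑ v with ¬ Real.exp K < Fintype.card V * ν v,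
      ν v * Real.log (Fintype.card V * ν v) := by
    have h5 : ∑ v with ¬ Real.exp K < Fintype.card V * ν v, (-(1 / (Fintype.card V : ℝ))) ≤
        ∑ v with ¬ Real.exp K < Fintype.card V * ν v, ν v * Real.log (Fintype.card V * ν v) := by
      refine Finset.sum_le_sum fun v _ => ?_
      have h6 := point_le hn (h0 v)
      have h7 := h0 v
      linarith
    have h6 : (-1 : ℝ) ≤ ∑ v with ¬ Real.exp K < Fintype.card V * ν v,
        (-(1 / (Fintype.card V : ℝ))) := by
      rw [Finset.sum_const, nsmul_eq_mul, mul_neg, neg_le_neg_iff, mul_one_div,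
        div_le_one hn]
      exact_mod_cast Finset.card_le_univ _
    exact h6.trans h5
  rw [le_div_iff₀ hK]
  linarith

end Pool.Agent.RLog
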