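import Pool.Agent.RLog.Defs
import Pool.Agent.RLog.Exch
import Pool.Agent.RLog.Trunc
import Pool.Agent.GMH.AntiHot

/-!
# Pinning

`nu E k s i`: the law of `x i` for `x` uniform in `pre E k s`; `pr E k s i j (v, w)`: the law of `(x i, x j)`.

Paper proof. `L k x = log (n c_(k+1) x / c_k x)`, `c_k x = #(pre E k x)`; `∑_(k < t) L k x = t log n - log #E`. `D k` the mean of `L k` over `E`.
`D (k+1) - D k` is the mean over `s ∈ E` of the relative entropy of `pr` with respect to `nu ⊗ nu` (exchangeability),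
`D k` the mean of the relative entropy of `nu` to the uniform law. So `D` is nondecreasing and `≥ 0`, `D M ≤ 2 F`, and some
`k < M` has `D (k+1) - D k ≤ 2 F / M`, `D k ≤ 2 F`.
-/

set_option autoImplicit false
set_option linter.unusedSectionVars false

namespace Pool.Agent.RLog

open Finset

variable {V : Type} [Fintype V] [DecidableEq V]

/-- The law of `x i` for `x` uniform in `pre E k s`. -/
noncomputable def nu {t : ℕ} (E : Finset (Fin t → V)) (k : ℕ) (s : Fin t → V) (i : Fin t) (v : V) : ℝ :=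
  (((pre E k s).filter fun x => x i = v).card : ℝ) / (pre E k s).card

/-- The law of `(x i, x j)` for `x` uniform in `pre E k s`. -/
noncomputable def pr {t : ℕ} (E : Finset (Fin t → V)) (k : ℕ) (s : Fin t → V) (i j : Fin t)
    (p : V × V) : ℝ :=
  (((pre E k s).filter fun x => x i = p.1 ∧ x j = p.2).card : ℝ) / (pre E k s).card

variable {t : ℕ} {E : Finset (Fin t → V)}

private lemma mem_pre {k : ℕ} {s x : Fin t → V} :
    x ∈ pre E k s ↔ x ∈ E ∧ ∀ i : Fin t, (i : ℕ) < k → x i = s i := by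
  unfold pre
  rw [mem_filter]

private lemma pre_self {k : ℕ} {s : Fin t → V} (hs : s ∈ E) : s ∈ pre E k s :=
  mem_pre.2 ⟨hs, fun _ _ => rfl⟩

private lemma pre_congr {k : ℕ} {s x : Fin t → V} (h : ∀ i : Fin t, (i : ℕ) < k → x i = s i) :
    pre E k x = pre E k s := by
  ext y
  rw [mem_pre, mem_pre]
  constructor
  · rintro ⟨h1, h2⟩
    exact ⟨h1, fun i hi => (h2 i hi).trans (h i hi)⟩
  · rintro ⟨h1, h2⟩
    exact ⟨h1, fun i hi => (h2 i hi).trans (h i hi).symm⟩

private lemma card_pos' {k : ℕ} {s : Fin t → V} (hs : s ∈ E) : (0 : ℝ) < (pre E k s).card := by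
  exact_mod_cast card_pos.2 ⟨s, pre_self hs⟩

private lemma pre_one {k : ℕ} {s x : Fin t → V} (hx : x ∈ pre E k s) {i : Fin t} (hi : (i : ℕ) = k) :
    pre E (k + 1) x = (pre E k s).filter fun y => y i = x i := by
  ext y
  rw [mem_filter, mem_pre, mem_pre]
  have hx2 := (mem_pre.1 hx).2
  constructor
  · rintro ⟨h1, h2⟩
    exact ⟨⟨h1, fun l hl => (h2 l (by omega)).trans (hx2 l hl)⟩, h2 i (by omega)⟩
  · rintro ⟨⟨h1, h2⟩, h3⟩
    refine ⟨h1, fun l hl => ?_⟩
    rcases Nat.lt_succ_iff_lt_or_eq.1 hl with h | h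
    · exact (h2 l h).trans (hx2 l h).symm
    · have : l = i := Fin.ext (h.trans hi.symm)
      rw [this]
      exact h3

private lemma pre_two {k : ℕ} {s x : Fin t → V} (hx : x ∈ pre E k s) {i j : Fin t}
    (hi : (i : ℕ) = k) (hj : (j : ℕ) = k + 1) :
    pre E (k + 2) x = (pre E k s).filter fun y => y i = x i ∧ y j = x j := by
  have hx1 : x ∈ pre E (k + 1) x := pre_self (mem_pre.1 hx).1
  rw [pre_one (k := k + 1) hx1 hj, pre_one hx hi, filter_filter]

private lemma avg (k : ℕ) (f : (Fin t → V) → ℝ) :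
    ∑ s ∈ E, (∑ x ∈ pre E k s, f x) / ((pre E k s).card : ℝ) = ∑ x ∈ E, f x := by
  have h1 : ∑ s ∈ E, (∑ x ∈ pre E k s, f x) / ((pre E k s).card : ℝ) =
      ∑ s ∈ E, ∑ x ∈ E, if x ∈ pre E k s then f x / ((pre E k x).card : ℝ) else 0 := by
    refine sum_congr rfl fun s _ => ?_
    rw [sum_div, ← sum_filter]
    have h2 : E.filter (fun x => x ∈ pre E k s) = pre E k s := by
      ext x
      rw [mem_filter]
      exact ⟨fun h => h.2, fun h => ⟨(mem_pre.1 h).1, h⟩⟩
    rw [h2]
    refine sum_congr rfl fun x hx => ?_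
    rw [pre_congr (mem_pre.1 hx).2]
  rw [h1, sum_comm]
  refine sum_congr rfl fun x hx => ?_
  rw [← sum_filter]
  have h3 : E.filter (fun s => x ∈ pre E k s) = pre E k x := by
    ext s
    rw [mem_filter, mem_pre, mem_pre]
    constructor
    · rintro ⟨h, -, h2⟩
      exact ⟨h, fun i hi => (h2 i hi).symm⟩
    · rintro ⟨h, h2⟩
      exact ⟨h, hx, fun i hi => (h2 i hi).symm⟩
  rw [h3, sum_const, nsmul_eq_mul]
  have := card_pos' (k := k) hx
  field_simp

/-- The logarithm of the conditional probability of the entry `k`. -/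
private noncomputable def ell (E : Finset (Fin t → V)) (k : ℕ) (x : Fin t → V) : ℝ :=
  Real.log (pre E (k + 1) x).card - Real.log (pre E k x).card

private lemma tele {x : Fin t → V} (hx : x ∈ E) :
    ∑ k ∈ range t, ell E k x = - Real.log E.card := by
  unfold ell
  rw [sum_range_sub (fun k => Real.log ((pre E k x).card : ℝ))]
  have h1 : pre E t x = {x} := by
    ext y
    rw [mem_pre, mem_singleton]
    constructor
    · rintro ⟨-, h⟩
      funext i
      exact h i i.2
    · rintro rfl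
      exact ⟨hx, fun _ _ => rfl⟩
  have h2 : pre E 0 x = E := by
    ext y
    rw [mem_pre]
    exact ⟨fun h => h.1, fun h => ⟨h, fun i hi => absurd hi (Nat.not_lt_zero _)⟩⟩
  rw [h1, h2, card_singleton, Nat.cast_one, Real.log_one, zero_sub]

section law

variable {k : ℕ} {s : Fin t → V}

private lemma sum_law {κ : Type} [Fintype κ] [DecidableEq κ] (S : Finset (Fin t → V))
    (f : (Fin t → V) → κ) (g : κ → ℝ) :
    ∑ b, ((S.filter fun x => f x = b).card : ℝ) / S.card * g b = (∑ x ∈ S, g (f x)) / S.card := by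
  rw [← sum_fiberwise S f, sum_div]
  refine sum_congr rfl fun b _ => ?_
  have h1 : ∑ x ∈ S with f x = b, g (f x) = ((S.filter fun x => f x = b).card : ℝ) * g b := by
    rw [← nsmul_eq_mul, ← sum_const]
    exact sum_congr rfl fun x hx => by rw [(mem_filter.1 hx).2]
  rw [h1]
  ring

private lemma nu_nonneg (i : Fin t) (v : V) : 0 ≤ nu E k s i v := by
  unfold nu
  positivity

private lemma pr_nonneg (i j : Fin t) (p : V × V) : 0 ≤ pr E k s i j p := by
  unfold pr
  positivity

private lemma nu_sum (hs : s ∈ E) (i : Fin t) : ∑ v, nu E k s i v = 1 := by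
  have h := sum_law (pre E k s) (fun x => x i) (fun _ => 1)
  simp only [mul_one, sum_const, nsmul_eq_mul] at h
  unfold nu
  rw [h, div_self (card_pos' hs).ne']

private lemma pr_sum (hs : s ∈ E) (i j : Fin t) : ∑ p, pr E k s i j p = 1 := by
  have h := sum_law (pre E k s) (fun x => (x i, x j)) (fun _ => 1)
  simp only [mul_one, sum_const, nsmul_eq_mul] at h
  unfold pr
  have e : ∀ p : V × V, ((pre E k s).filter fun x => x i = p.1 ∧ x j = p.2) =
      (pre E k s).filter fun x => (x i, x j) = p := by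
    intro p
    refine filter_congr fun x _ => ?_
    rw [Prod.ext_iff]
  simp only [e]
  rw [h, div_self (card_pos' hs).ne']

private lemma nu_at {x : Fin t → V} (hx : x ∈ pre E k s) {i : Fin t} (hi : (i : ℕ) = k) :
    nu E k s i (x i) = (pre E (k + 1) x).card / (pre E k x).card := by
  unfold nu
  rw [pre_one hx hi, pre_congr (mem_pre.1 hx).2]

private lemma pr_at {x : Fin t → V} (hx : x ∈ pre E k s) {i j : Fin t} (hi : (i : ℕ) = k)
    (hj : (j : ℕ) = k + 1) :
    pr E k s i j (x i, x j) = (pre E (k + 2) x).card / (pre E k x).card := by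
  unfold pr
  rw [pre_two hx hi hj, pre_congr (mem_pre.1 hx).2]

end law

private lemma swap_lt {k : ℕ} {i j : Fin t} (hi : (i : ℕ) = k) (hj : (j : ℕ) = k + 1) (x : Fin t → V)
    (l : Fin t) (hl : (l : ℕ) < k) : (x ∘ Equiv.swap i j) l = x l := by
  rw [Function.comp_apply, Equiv.swap_apply_of_ne_of_ne]
  · rintro rfl
    omega
  · rintro rfl
    omega

/-- The relative entropies at one conditioning. -/
private lemma kl_eq (hsym : ∀ x ∈ E, ∀ σ : Equiv.Perm (Fin t), x ∘ σ ∈ E) {k : ℕ} {s : Fin t → V}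
    {i j : Fin t} (hi : (i : ℕ) = k) (hj : (j : ℕ) = k + 1) :
    ∑ p, pr E k s i j p * Real.log (pr E k s i j p / (nu E k s i p.1 * nu E k s i p.2)) =
      (∑ x ∈ pre E k s, (ell E (k + 1) x - ell E k (x ∘ Equiv.swap i j))) / (pre E k s).card := by
  have h := sum_law (pre E k s) (fun x => (x i, x j)) (fun p =>
    Real.log (pr E k s i j p / (nu E k s i p.1 * nu E k s i p.2)))
  have e : ∀ p : V × V, ((pre E k s).filter fun x => x i = p.1 ∧ x j = p.2) =
      (pre E k s).filter fun x => (x i, x j) = p := by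
    intro p
    refine filter_congr fun x _ => ?_
    rw [Prod.ext_iff]
  have h2 : ∑ p, pr E k s i j p * Real.log (pr E k s i j p / (nu E k s i p.1 * nu E k s i p.2)) =
      ∑ b, (((pre E k s).filter fun x => (x i, x j) = b).card : ℝ) / (pre E k s).card *
        Real.log (pr E k s i j b / (nu E k s i b.1 * nu E k s i b.2)) := by
    refine sum_congr rfl fun p _ => ?_
    have e2 : pr E k s i j p =
        (((pre E k s).filter fun x => (x i, x j) = p).card : ℝ) / (pre E k s).card := by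
      rw [pr, e]
    rw [← e2]
  rw [h2, h]
  congr 1
  refine sum_congr rfl fun x hx => ?_
  have hxE := (mem_pre.1 hx).1
  set y := x ∘ Equiv.swap i j with hy
  have hyE : y ∈ E := hsym x hxE _
  have hyk : pre E k y = pre E k x := pre_congr fun l hl => swap_lt hi hj x l hl
  have hy1 : y ∈ pre E k s := by
    refine mem_pre.2 ⟨hyE, fun l hl => ?_⟩
    rw [hy, swap_lt hi hj x l hl]
    exact (mem_pre.1 hx).2 l hl
  have hyi : y i = x j := by
    rw [hy, Function.comp_apply, Equiv.swap_apply_left]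
  have n1 := nu_at hx hi
  have n2 := nu_at hy1 hi
  rw [hyi, hyk] at n2
  have n3 := pr_at hx hi hj
  change Real.log (pr E k s i j (x i, x j) / (nu E k s i (x i) * nu E k s i (x j))) = _
  rw [n1, n2, n3]
  unfold ell
  rw [hyk]
  have p0 := card_pos' (k := k) hxE
  have p1 := card_pos' (k := k + 1) hxE
  have p2 := card_pos' (k := k + 2) hxE
  have p3 := card_pos' (k := k + 1) hyE
  rw [Real.log_div (by positivity) (by positivity), Real.log_div p2.ne' p0.ne',
    Real.log_mul (by positivity) (by positivity), Real.log_div p1.ne' p0.ne',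
    Real.log_div p3.ne' p0.ne']
  ring

private lemma dd_eq {k : ℕ} {s : Fin t → V} {i : Fin t} (hi : (i : ℕ) = k)
    (hn : (0 : ℝ) < Fintype.card V) :
    ∑ v, nu E k s i v * Real.log (Fintype.card V * nu E k s i v) =
      (∑ x ∈ pre E k s, (Real.log (Fintype.card V) + ell E k x)) / (pre E k s).card := by
  have h := sum_law (pre E k s) (fun x => x i) (fun v => Real.log (Fintype.card V * nu E k s i v))
  have h2 : ∑ v, nu E k s i v * Real.log (Fintype.card V * nu E k s i v) =
      ∑ b, (((pre E k s).filter fun x => x i = b).card : ℝ) / (pre E k s).card *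
        Real.log (Fintype.card V * nu E k s i b) := rfl
  rw [h2, h]
  congr 1
  refine sum_congr rfl fun x hx => ?_
  have hxE := (mem_pre.1 hx).1
  change Real.log (Fintype.card V * nu E k s i (x i)) = _
  rw [nu_at hx hi]
  have p0 := card_pos' (k := k) hxE
  have p1 := card_pos' (k := k + 1) hxE
  rw [Real.log_mul hn.ne' (by positivity), Real.log_div p1.ne' p0.ne']
  rfl

private lemma sum_swap (hsym : ∀ x ∈ E, ∀ σ : Equiv.Perm (Fin t), x ∘ σ ∈ E) (σ : Equiv.Perm (Fin t))
    (hσ : ∀ l, σ (σ l) = l) (f : (Fin t → V) → ℝ) : ∑ x ∈ E, f (x ∘ σ) = ∑ x ∈ E, f x := by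
  have h : ∀ x : Fin t → V, (x ∘ σ) ∘ σ = x := by
    intro x
    funext l
    simp only [Function.comp_apply]
    rw [hσ]
  refine sum_bij' (fun x _ => x ∘ σ) (fun x _ => x ∘ σ) (fun x hx => hsym x hx σ)
    (fun x hx => hsym x hx σ) (fun x _ => h x) (fun x _ => h x) fun x _ => rfl

private lemma pinsk (hsym : ∀ x ∈ E, ∀ σ : Equiv.Perm (Fin t), x ∘ σ ∈ E) {k : ℕ} {s : Fin t → V}
    (hs : s ∈ E) {i j : Fin t} (hi : (i : ℕ) = k) (hj : (j : ℕ) = k + 1) :
    (∑ p, |pr E k s i j p - nu E k s i p.1 * nu E k s i p.2|) ^ 2 ≤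
      2 * ∑ p, pr E k s i j p * Real.log (pr E k s i j p / (nu E k s i p.1 * nu E k s i p.2)) := by
  refine GMH.pinsker_abs univ (fun p _ => pr_nonneg i j p)
    (fun p _ => mul_nonneg (nu_nonneg i _) (nu_nonneg i _)) (pr_sum hs i j) ?_ ?_
  · have h1 : ∑ p : V × V, nu E k s i p.1 * nu E k s i p.2 =
        (∑ v, nu E k s i v) * ∑ v, nu E k s i v := by
      rw [sum_mul_sum, ← univ_product_univ, sum_product]
    rw [h1, nu_sum hs i, one_mul]
  · rintro ⟨v, w⟩ - h0
    have hc := card_pos' (k := k) hs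
    rcases mul_eq_zero.1 h0 with h | h
    · change nu E k s i v = 0 at h
      unfold nu at h
      rw [div_eq_zero_iff] at h
      have h2 : ((pre E k s).filter fun x => x i = v).card = 0 := by
        rcases h with h | h
        · exact_mod_cast h
        · exact absurd h hc.ne'
      unfold pr
      have h3 : ((pre E k s).filter fun x => x i = v ∧ x j = w) = ∅ := by
        rw [card_eq_zero] at h2
        rw [eq_empty_iff_forall_notMem] at h2 ⊢
        intro x hx
        rw [mem_filter] at hx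
        exact h2 x (mem_filter.2 ⟨hx.1, hx.2.1⟩)
      change (((pre E k s).filter fun x => x i = v ∧ x j = w).card : ℝ) / _ = 0
      rw [h3, card_empty, Nat.cast_zero, zero_div]
    · change nu E k s i w = 0 at h
      unfold nu at h
      rw [exch_card hsym k s (i := i) (j := j) (by omega) (by omega) w, div_eq_zero_iff] at h
      have h2 : ((pre E k s).filter fun x => x j = w).card = 0 := by
        rcases h with h | h
        · exact_mod_cast h
        · exact absurd h hc.ne'
      unfold pr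
      have h3 : ((pre E k s).filter fun x => x i = v ∧ x j = w) = ∅ := by
        rw [card_eq_zero] at h2
        rw [eq_empty_iff_forall_notMem] at h2 ⊢
        intro x hx
        rw [mem_filter] at hx
        exact h2 x (mem_filter.2 ⟨hx.1, hx.2.2⟩)
      change (((pre E k s).filter fun x => x i = v ∧ x j = w).card : ℝ) / _ = 0
      rw [h3, card_empty, Nat.cast_zero, zero_div]

theorem exists_pin (hE : E.Nonempty)
    (hsym : ∀ x ∈ E, ∀ σ : Equiv.Perm (Fin t), x ∘ σ ∈ E) {F : ℝ} (hF : 0 < F)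
    (hcard : (t : ℝ) * Real.log (Fintype.card V) - F * t ≤ Real.log E.card) {M : ℕ} (hM : 1 ≤ M)
    (hMt : 2 * M + 2 ≤ t) :
    ∃ k : ℕ, k < M ∧ ∃ s ∈ E, ∀ i j : Fin t, (i : ℕ) = k → (j : ℕ) = k + 1 →
      ∑ v, nu E k s i v * Real.log (Fintype.card V * nu E k s i v) ≤ 4 * F ∧
      (∑ p, |pr E k s i j p - nu E k s i p.1 * nu E k s i p.2|) ^ 2 ≤ 8 * F / M := by
  classical
  obtain ⟨s₀, hs₀⟩ := hE
  have ht0 : 0 < t := by omega
  have hV : Nonempty V := ⟨s₀ ⟨0, ht0⟩⟩
  have hn : (0 : ℝ) < Fintype.card V := by exact_mod_cast Fintype.card_pos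
  have hc0 : (0 : ℝ) < E.card := by exact_mod_cast card_pos.2 ⟨s₀, hs₀⟩
  have hM0 : (0 : ℝ) < M := by exact_mod_cast hM
  set d : ℕ → ℝ := fun k => ∑ x ∈ E, (Real.log (Fintype.card V) + ell E k x) with hd
  set kl : ℕ → (Fin t → V) → ℝ := fun k s => (∑ x ∈ pre E k s, (if h : k + 1 < t then
    (ell E (k + 1) x - ell E k (x ∘ Equiv.swap ⟨k, by omega⟩ ⟨k + 1, h⟩)) else 0)) /
      (pre E k s).card with hkl
  set de : ℕ → (Fin t → V) → ℝ := fun k s =>
    (∑ x ∈ pre E k s, (Real.log (Fintype.card V) + ell E k x)) / (pre E k s).card with hde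
  have hkl_eq : ∀ k (h : k + 1 < t), ∀ s ∈ E, kl k s =
      ∑ p, pr E k s ⟨k, by omega⟩ ⟨k + 1, h⟩ p * Real.log (pr E k s ⟨k, by omega⟩ ⟨k + 1, h⟩ p /
        (nu E k s ⟨k, by omega⟩ p.1 * nu E k s ⟨k, by omega⟩ p.2)) := by
    intro k h s hs
    rw [kl_eq (i := ⟨k, by omega⟩) (j := ⟨k + 1, h⟩) hsym rfl rfl]
    simp only [hkl, dif_pos h]
  have hkl0 : ∀ k, k + 1 < t → ∀ s ∈ E, 0 ≤ kl k s := by
    intro k h s hs
    rw [hkl_eq k h s hs]
    have h1 := pinsk (k := k) (i := ⟨k, by omega⟩) (j := ⟨k + 1, h⟩) hsym hs rfl rfl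
    have h2 := (sq_nonneg _).trans h1
    linarith
  have hde0 : ∀ k, k < t → ∀ s ∈ E, 0 ≤ de k s := by
    intro k h s hs
    have h1 := gibbs (ν := nu E k s ⟨k, h⟩) (nu_nonneg _) (nu_sum hs _)
    rw [dd_eq (i := ⟨k, h⟩) rfl hn] at h1
    exact h1
  have hsumkl : ∀ k, k + 1 < t → ∑ s ∈ E, kl k s = d (k + 1) - d k := by
    intro k h
    rw [hkl]
    simp only
    rw [avg k]
    simp only [dif_pos h, sum_sub_distrib]
    rw [sum_swap hsym _ (fun l => Equiv.swap_apply_self _ _ _) (ell E k), hd]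
    simp only [sum_add_distrib]
    ring
  have hsumde : ∀ k, ∑ s ∈ E, de k s = d k := by
    intro k
    rw [hde]
    exact avg k _
  have hd0 : ∀ k, k < t → 0 ≤ d k := fun k h => by
    rw [← hsumde k]
    exact sum_nonneg fun s hs => hde0 k h s hs
  have hmono : ∀ k, k + 1 < t → d k ≤ d (k + 1) := fun k h => by
    have h1 := hsumkl k h
    have h2 := sum_nonneg fun s hs => hkl0 k h s hs
    linarith
  have hmono2 : ∀ k l, k ≤ l → l < t → d k ≤ d l := by
    intro k l hkl' hl
    induction l with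
    | zero =>
      have : k = 0 := by omega
      rw [this]
    | succ l ih =>
      rcases Nat.lt_or_ge k (l + 1) with h | h
      · exact (ih (by omega) (by omega)).trans (hmono l hl)
      · have : k = l + 1 := by omega
        rw [this]
  have htot : ∑ k ∈ range t, d k ≤ E.card * (F * t) := by
    rw [hd]
    simp only
    rw [sum_comm]
    have h1 : ∀ x ∈ E, ∑ k ∈ range t, (Real.log (Fintype.card V) + ell E k x) ≤ F * t := by
      intro x hx
      rw [sum_add_distrib, tele hx, sum_const, card_range, nsmul_eq_mul]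
      linarith
    refine (sum_le_sum h1).trans ?_
    rw [sum_const, nsmul_eq_mul]
  have hdM : d M ≤ 2 * F * E.card := by
    have h1 : ((t : ℝ) - M) * d M ≤ ∑ k ∈ range t, d k := by
      have h2 : ∑ k ∈ Ico M t, d k ≤ ∑ k ∈ range t, d k := by
        refine sum_le_sum_of_subset_of_nonneg ?_ fun k hk _ => hd0 k (mem_range.1 hk)
        intro k hk
        exact mem_range.2 (mem_Ico.1 hk).2
      have h3 : ∑ k ∈ Ico M t, d M ≤ ∑ k ∈ Ico M t, d k := by
        refine sum_le_sum fun k hk => ?_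
        rw [mem_Ico] at hk
        exact hmono2 M k hk.1 hk.2
      rw [sum_const, Nat.card_Ico, nsmul_eq_mul, Nat.cast_sub (by omega)] at h3
      linarith
    have h4 : (t : ℝ) / 2 ≤ (t : ℝ) - M := by
      have : (2 * M + 2 : ℝ) ≤ t := by exact_mod_cast hMt
      linarith
    have h5 := hd0 M (by omega)
    have h6 : (0 : ℝ) < t := by exact_mod_cast ht0
    have h7 : (t : ℝ) / 2 * d M ≤ E.card * (F * t) :=
      ((mul_le_mul_of_nonneg_right h4 h5).trans h1).trans htot
    have h8 : (t : ℝ) / 2 * d M ≤ t / 2 * (2 * F * E.card) := by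
      refine h7.trans (le_of_eq ?_)
      ring
    exact le_of_mul_le_mul_left h8 (by positivity)
  obtain ⟨k, hk, hk2⟩ : ∃ k ∈ range M, d (k + 1) - d k ≤ 2 * F * E.card / M := by
    refine exists_le_of_sum_le ⟨0, mem_range.2 (by omega)⟩ ?_
    rw [sum_range_sub, sum_const, card_range, nsmul_eq_mul, mul_div_cancel₀ _ hM0.ne']
    have := hd0 0 (by omega)
    linarith
  rw [mem_range] at hk
  have hkt : k + 1 < t := by omega
  have hdk : d k ≤ 2 * F * E.card := (hmono2 k M hk.le (by omega)).trans hdM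
  obtain ⟨s, hs, hs2⟩ : ∃ s ∈ E, kl k s * M / (2 * F) + de k s / (2 * F) ≤ 2 := by
    refine exists_le_of_sum_le ⟨s₀, hs₀⟩ ?_
    rw [sum_const, nsmul_eq_mul, sum_add_distrib, ← sum_div, ← sum_div, ← sum_mul,
      hsumkl k hkt, hsumde k]
    have h1 : (d (k + 1) - d k) * M / (2 * F) ≤ E.card := by
      rw [div_le_iff₀ (by positivity)]
      calc (d (k + 1) - d k) * M ≤ 2 * F * E.card / M * M := by gcongr
        _ = E.card * (2 * F) := by field_simp
    have h2 : d k / (2 * F) ≤ E.card := by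
      rw [div_le_iff₀ (by positivity)]
      linarith
    linarith
  refine ⟨k, hk, s, hs, fun i j hi hj => ?_⟩
  have hi' : (⟨k, lt_trans (Nat.lt_succ_self k) hkt⟩ : Fin t) = i := Fin.ext hi.symm
  have hj' : (⟨k + 1, hkt⟩ : Fin t) = j := Fin.ext hj.symm
  have g1 := hkl0 k hkt s hs
  have g2 := hde0 k (by omega) s hs
  have g3 : 0 ≤ kl k s * M / (2 * F) := by positivity
  have g4 : 0 ≤ de k s / (2 * F) := by positivity
  constructor
  · rw [dd_eq hi hn]
    change de k s ≤ 4 * F
    have g5 : de k s / (2 * F) ≤ 2 := by linarith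
    rw [div_le_iff₀ (by positivity)] at g5
    linarith
  · refine (pinsk hsym hs hi hj).trans ?_
    have g5 : kl k s * M / (2 * F) ≤ 2 := by linarith
    rw [div_le_iff₀ (by positivity)] at g5
    have g6 : kl k s ≤ 4 * F / M := by
      rw [le_div_iff₀ hM0]
      linarith
    have g7 := hkl_eq k hkt s hs
    rw [hi', hj'] at g7
    rw [← g7]
    calc 2 * kl k s ≤ 2 * (4 * F / M) := by gcongr
      _ = 8 * F / M := by ring

/-- The conditional law of one entry is a regular measure of bounded relative entropy. -/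
theorem exists_law (G : SimpleGraph V) [DecidableRel G.Adj] (hE : E.Nonempty)
    (hsym : ∀ x ∈ E, ∀ σ : Equiv.Perm (Fin t), x ∘ σ ∈ E) {c a F : ℝ} (hc : 0 ≤ c) (hc1 : c ≤ 1)
    (ha : 0 ≤ a)
    (hpat : ∀ x ∈ E, ∀ I J : Finset (Fin t), |∑ i ∈ I, ∑ j ∈ J, Kc G c (x i) (x j)| ≤ a)
    (hF : 0 < F) (hcard : (t : ℝ) * Real.log (Fintype.card V) - F * t ≤ Real.log E.card) {M : ℕ}
    (hM : 1 ≤ M) (hMt : 2 * M + 2 ≤ t) :
    ∃ ν : V → ℝ, (∀ v, 0 ≤ ν v) ∧ ∑ v, ν v = 1 ∧
      ∑ v, ν v * Real.log (Fintype.card V * ν v) ≤ 4 * F ∧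
      ∀ B B' : Finset V, |∑ x ∈ B, ∑ y ∈ B', ν x * ν y * Kc G c x y| ≤
        4 * (a + t) / (t : ℝ) ^ 2 + √(8 * F / M) := by
  obtain ⟨k, hk, s, hs, H⟩ := exists_pin hE hsym hF hcard hM hMt
  obtain ⟨i, hi⟩ : ∃ i : Fin t, (i : ℕ) = k := ⟨⟨k, by omega⟩, rfl⟩
  obtain ⟨j, hj⟩ : ∃ j : Fin t, (j : ℕ) = k + 1 := ⟨⟨k + 1, by omega⟩, rfl⟩
  obtain ⟨h1, h2⟩ := H i j hi hj
  have hM0 : (0 : ℝ) < M := by exact_mod_cast hM
  refine ⟨nu E k s i, nu_nonneg i, nu_sum hs i, h1, fun B B' => ?_⟩
  set φ : V × V → ℝ := fun p => if p.1 ∈ B ∧ p.2 ∈ B' then Kc G c p.1 p.2 else 0 with hφ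
  have hφ1 : ∀ p, |φ p| ≤ 1 := by
    intro p
    simp only [hφ]
    split_ifs
    · exact Kc_abs G hc hc1 _ _
    · rw [abs_zero]
      exact zero_le_one
  have e1 : ∑ x ∈ B, ∑ y ∈ B', nu E k s i x * nu E k s i y * Kc G c x y =
      ∑ p, nu E k s i p.1 * nu E k s i p.2 * φ p := by
    rw [← univ_product_univ, sum_product]
    have e2 : ∀ x : V, ∑ y, nu E k s i x * nu E k s i y * φ (x, y) =
        if x ∈ B then ∑ y ∈ B', nu E k s i x * nu E k s i y * Kc G c x y else 0 := by
      intro x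
      split_ifs with hx
      · rw [← sum_filter_add_sum_filter_not univ (fun y => y ∈ B')]
        rw [filter_mem_eq_inter, univ_inter]
        have e3 : ∑ y with y ∉ B', nu E k s i x * nu E k s i y * φ (x, y) = 0 := by
          refine sum_eq_zero fun y hy => ?_
          have : ¬ (x ∈ B ∧ y ∈ B') := fun h => (mem_filter.1 hy).2 h.2
          simp only [hφ, if_neg this, mul_zero]
        rw [e3, add_zero]
        refine sum_congr rfl fun y hy => ?_
        have : x ∈ B ∧ y ∈ B' := ⟨hx, hy⟩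
        simp only [hφ, if_pos this]
      · refine sum_eq_zero fun y _ => ?_
        have : ¬ (x ∈ B ∧ y ∈ B') := fun h => hx h.1
        simp only [hφ, if_neg this, mul_zero]
    simp only [e2]
    rw [← sum_filter, filter_mem_eq_inter, univ_inter]
  have e4 : ∑ p, pr E k s i j p * φ p =
      (∑ x ∈ pre E k s, (if x i ∈ B ∧ x j ∈ B' then Kc G c (x i) (x j) else 0)) /
        (pre E k s).card := by
    have h := sum_law (pre E k s) (fun x => (x i, x j)) φ
    have e : ∀ p : V × V, ((pre E k s).filter fun x => x i = p.1 ∧ x j = p.2) =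
        (pre E k s).filter fun x => (x i, x j) = p := by
      intro p
      refine filter_congr fun x _ => ?_
      rw [Prod.ext_iff]
    unfold pr
    simp only [e]
    rw [h]
  have hp0 := card_pos' (k := k) hs
  have ht0 : (0 : ℝ) < t := by
    have : 0 < t := by omega
    exact_mod_cast this
  have h3 : |∑ p, pr E k s i j p * φ p| ≤ 4 * (a + t) / (t : ℝ) ^ 2 := by
    have h4 := form_bound G hsym hc hc1 ha hpat (k := k) (by omega) s hi hj B B'
    rw [e4, abs_div, abs_of_pos hp0, div_le_div_iff₀ hp0 (by positivity)]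
    linarith
  have h5 : |∑ p, pr E k s i j p * φ p - ∑ p, nu E k s i p.1 * nu E k s i p.2 * φ p| ≤
      √(8 * F / M) := by
    rw [← sum_sub_distrib]
    have h6 : |∑ p, (pr E k s i j p * φ p - nu E k s i p.1 * nu E k s i p.2 * φ p)| ≤
        ∑ p, |pr E k s i j p - nu E k s i p.1 * nu E k s i p.2| := by
      refine (abs_sum_le_sum_abs _ _).trans (sum_le_sum fun p _ => ?_)
      rw [← sub_mul, abs_mul]
      exact mul_le_of_le_one_right (abs_nonneg _) (hφ1 p)
    refine h6.trans (Real.le_sqrt_of_sq_le h2)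
  rw [e1]
  have h7 := abs_sub_abs_le_abs_sub (∑ p, nu E k s i p.1 * nu E k s i p.2 * φ p)
    (∑ p, pr E k s i j p * φ p)
  rw [abs_sub_comm] at h7
  linarith

end Pool.Agent.RLog
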