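import Pool.Agent.RLog.Defs

/-!
# A window for the density

Paper proof. The densities are in `[0, 1]`; `J = ⌊1/ε⌋ + 1 ≤ 2/ε` windows `[j ε, (j+1) ε)`, `j ≤ 1/ε`, pigeonhole
(`Finset.exists_le_card_fiber_of_mul_le_card_of_maps_to` or a sum). `c = j ε`.
-/

set_option autoImplicit false

namespace Pool.Agent.RLog

open Finset

theorem window {ι : Type} (E : Finset ι) (d : ι → ℝ) (hd : ∀ x ∈ E, 0 ≤ d x ∧ d x ≤ 1) {ε : ℝ}
    (hε : 0 < ε) (hε1 : ε ≤ 1) : ∃ c : ℝ, 0 ≤ c ∧ c ≤ 1 ∧ ∀ [DecidablePred fun x => |d x - c| ≤ ε],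
      ε / 2 * E.card ≤ ((E.filter fun x => |d x - c| ≤ ε).card : ℝ) := by
  classical
  have key : ∃ j ∈ Finset.range (⌊1 / ε⌋₊ + 1),
      ε / 2 * E.card ≤ ((E.filter fun x => |d x - j * ε| ≤ ε).card : ℝ) := by
    by_contra hcon
    push Not at hcon
    have h1 : (E.card : ℝ) ≤
        ∑ j ∈ Finset.range (⌊1 / ε⌋₊ + 1), ((E.filter fun x => |d x - j * ε| ≤ ε).card : ℝ) := by
      have h2 : E.card ≤ ((Finset.range (⌊1 / ε⌋₊ + 1)).biUnion
          fun j => E.filter fun x => |d x - (j : ℝ) * ε| ≤ ε).card := by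
        refine Finset.card_le_card fun x hx => ?_
        obtain ⟨hx0, hx1⟩ := hd x hx
        have h3 : 0 ≤ d x / ε := div_nonneg hx0 hε.le
        have h4 := Nat.floor_le h3
        have h5 := Nat.lt_floor_add_one (d x / ε)
        rw [le_div_iff₀ hε] at h4
        rw [div_lt_iff₀ hε] at h5
        rw [Finset.mem_biUnion]
        refine ⟨⌊d x / ε⌋₊, ?_, ?_⟩
        · rw [Finset.mem_range, Nat.lt_succ_iff]
          exact Nat.floor_le_floor (div_le_div_of_nonneg_right hx1 hε.le)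
        · rw [Finset.mem_filter, abs_le]
          refine ⟨hx, ?_, ?_⟩
          · linarith
          · linarith
      have h6 := h2.trans Finset.card_biUnion_le
      exact_mod_cast h6
    have h7 : ∑ j ∈ Finset.range (⌊1 / ε⌋₊ + 1), ((E.filter fun x => |d x - j * ε| ≤ ε).card : ℝ) <
        ∑ _j ∈ Finset.range (⌊1 / ε⌋₊ + 1), ε / 2 * E.card :=
      Finset.sum_lt_sum_of_nonempty ⟨0, by simp⟩ fun j hj => hcon j hj
    rw [Finset.sum_const, Finset.card_range, nsmul_eq_mul] at h7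
    have h8 : ((⌊1 / ε⌋₊ + 1 : ℕ) : ℝ) ≤ 2 / ε := by
      have h9 := Nat.floor_le (show 0 ≤ 1 / ε by positivity)
      have h10 : 1 ≤ 1 / ε := by
        rw [le_div_iff₀ hε]
        linarith
      have h11 : 2 / ε = 1 / ε + 1 / ε := by ring
      push_cast
      linarith
    have h12 : ((⌊1 / ε⌋₊ + 1 : ℕ) : ℝ) * (ε / 2 * E.card) ≤ 2 / ε * (ε / 2 * E.card) :=
      mul_le_mul_of_nonneg_right h8 (by positivity)
    have h13 : 2 / ε * (ε / 2 * E.card) = E.card := by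
      field_simp
    linarith
  obtain ⟨j, hj, h⟩ := key
  have hj1 : (j : ℝ) ≤ 1 / ε := by
    have h1 : j ≤ ⌊1 / ε⌋₊ := Nat.lt_succ_iff.1 (Finset.mem_range.1 hj)
    exact (Nat.le_floor_iff (by positivity)).1 h1
  refine ⟨j * ε, by positivity, ?_, ?_⟩
  · rwa [le_div_iff₀ hε] at hj1
  · intro _
    convert h

end Pool.Agent.RLog
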