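import Pool.Agent.RLog.Local
import Pool.Agent.RLog.Count
import Pool.Agent.RLog.Win

/-!
# The hard direction
-/

set_option autoImplicit false
set_option linter.unusedSectionVars false

namespace Pool.Agent.RLog

open Finset

variable {V : Type} [Fintype V] [DecidableEq V]

/-- A single vertex is regular. -/
theorem reg_single (G : SimpleGraph V) [DecidableRel G.Adj] {δ : ℝ} (hδ : 0 < δ) (v : V) :
    Reg G δ {v} := by
  refine ⟨singleton_nonempty v, fun X hX Y hY h1 h2 => ?_⟩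
  have key : ∀ Z : Finset V, Z ⊆ {v} → δ * (({v} : Finset V).card : ℝ) ≤ Z.card → Z = {v} := by
    intro Z hZ h
    rcases subset_singleton_iff.1 hZ with h0 | h0
    · rw [h0, card_singleton, card_empty] at h
      norm_num at h
      linarith
    · exact h0
  rw [key X hX h1, key Y hY h2, sub_self, abs_zero]
  exact hδ.le

/-- One step: from the sample statement for one `N` to a regular set. -/
theorem step (G : SimpleGraph V) [DecidableRel G.Adj] {ε T : ℝ} (hε : 0 < ε) (hε1 : ε ≤ 1 / 60)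
    {N : ℕ} (hN : 2 ≤ N) (hT : ε ^ (-3 : ℝ) * Real.logb 2 N ≤ T)
    (h : ∀ (G' : SimpleGraph (Fin N)) [DecidableRel G'.Adj],
      ∃ S : Finset (Fin N), Reg G' ε S ∧ T ≤ S.card)
    (hn : 2 * Real.exp ((12 * Real.log N + 1) / ε) ≤ ε * Fintype.card V) {δ : ℝ} (hδ : 0 < δ)
    (hδ1 : δ ≤ 1) (hεδ : 13440 * ε ≤ δ ^ 12) :
    ∃ U : Finset V, Reg G δ U ∧
      Fintype.card V * Real.exp (-((12 * Real.log N + 1) / ε)) / 4 ≤ U.card := by
  classical
  have hN2 : (2 : ℝ) ≤ N := by exact_mod_cast hN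
  have hN0 : (0 : ℝ) < N := by linarith
  set L : ℝ := Real.log N with hL
  have hL2 : 1 / 2 ≤ L := by
    have h1 : Real.log 2 ≤ L := Real.log_le_log (by norm_num) hN2
    have := Real.log_two_gt_d9
    linarith
  have hL0 : 0 < L := by linarith
  have hlogb : L ≤ Real.logb 2 N ∧ 1 ≤ Real.logb 2 N := by
    have h2 := Real.log_two_lt_d9
    have h3 := Real.log_two_gt_d9
    constructor
    · rw [Real.logb, le_div_iff₀ (by linarith)]
      nlinarith
    · rw [Real.logb, le_div_iff₀ (by linarith), one_mul]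
      exact Real.log_le_log (by norm_num) hN2
  have he3 : ε ^ (-3 : ℝ) = (ε⁻¹) ^ 3 := by
    rw [Real.rpow_neg hε.le, inv_pow]
    norm_num
  rw [he3] at hT
  have hei : 60 ≤ ε⁻¹ := by
    rw [le_inv_comm₀ (by norm_num) hε]
    linarith
  have hee : ε * ε⁻¹ = 1 := mul_inv_cancel₀ hε.ne'
  set e : ℝ := ε⁻¹ with he
  have he0 : 0 < e := by linarith
  -- the size of V
  have hexpN : (N : ℝ) ^ 2 ≤ Real.exp ((12 * L + 1) / ε) := by
    have h1 : (N : ℝ) ^ 2 = Real.exp (2 * L) := by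
      rw [two_mul, Real.exp_add, Real.exp_log hN0]
      ring
    rw [h1]
    refine Real.exp_le_exp.2 ?_
    rw [le_div_iff₀ hε]
    nlinarith
  have hVn : 2 * N ^ 2 ≤ Fintype.card V := by
    have h1 : 2 * (N : ℝ) ^ 2 ≤ Fintype.card V := by
      have h2 : (0 : ℝ) ≤ Fintype.card V := Nat.cast_nonneg _
      nlinarith
    exact_mod_cast h1
  obtain ⟨t, htT, htN, hcount⟩ := count G (ε := ε) (T := T) hN (fun G' => h G') hVn
  set n : ℝ := (Fintype.card V : ℝ) with hnn
  have hn0 : 0 < n := by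
    have h1 : 0 < 2 * N ^ 2 := by positivity
    have h2 : 0 < Fintype.card V := by omega
    exact Nat.cast_pos.2 h2
  have htL : e ^ 3 * L ≤ t := by
    have h1 : e ^ 3 * L ≤ e ^ 3 * Real.logb 2 N := by gcongr; exact hlogb.1
    linarith
  have hte : e ^ 3 ≤ t := by
    have h1 : e ^ 3 * 1 ≤ e ^ 3 * Real.logb 2 N := by gcongr; exact hlogb.2
    linarith
  have ht0 : (0 : ℝ) < t := lt_of_lt_of_le (by positivity) hte
  -- the tuples
  set E₀ : Finset (Fin t → V) := (univ : Finset (Fin t → V)).filter fun x =>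
        Function.Injective x ∧ Reg G ε (univ.image x) with hE₀
  have hcount' : n ^ t ≤ 6 * (N : ℝ) ^ t * E₀.card := hcount
  have hE₀c : (0 : ℝ) < E₀.card := by
    by_contra h0
    have h1 : (E₀.card : ℝ) = 0 := le_antisymm (not_lt.1 h0) (Nat.cast_nonneg _)
    rw [h1, mul_zero] at hcount'
    have : 0 < n ^ t := by positivity
    linarith
  obtain ⟨c, hc, hc1, hwin⟩ := window E₀ (fun x =>
    (G.edgeDensity (univ.image x) (univ.image x) : ℝ)) (fun x _ => by
      constructor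
      · exact_mod_cast G.edgeDensity_nonneg _ _
      · exact_mod_cast G.edgeDensity_le_one _ _) hε (by linarith)
  set E : Finset (Fin t → V) := E₀.filter fun x =>
    |(G.edgeDensity (univ.image x) (univ.image x) : ℝ) - c| ≤ ε with hE
  have hEc : ε / 2 * E₀.card ≤ E.card := hwin
  have hEc0 : (0 : ℝ) < E.card := lt_of_lt_of_le (by positivity) hEc
  have hEne : E.Nonempty := by
    rw [← card_pos]
    exact_mod_cast hEc0
  have himg : ∀ (x : Fin t → V) (σ : Equiv.Perm (Fin t)), univ.image (x ∘ σ) = univ.image x := by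
    intro x σ
    ext v
    simp only [mem_image, mem_univ, true_and, Function.comp_apply]
    constructor
    · rintro ⟨i, hi⟩
      exact ⟨σ i, hi⟩
    · rintro ⟨i, hi⟩
      exact ⟨σ.symm i, by rw [Equiv.apply_symm_apply]; exact hi⟩
  have hsym : ∀ x ∈ E, ∀ σ : Equiv.Perm (Fin t), x ∘ σ ∈ E := by
    intro x hx σ
    rw [hE, mem_filter, hE₀, mem_filter] at hx ⊢
    rw [himg]
    exact ⟨⟨mem_univ _, hx.1.2.1.comp σ.injective, hx.1.2.2⟩, hx.2⟩
  have hreg : ∀ x ∈ E, Function.Injective x ∧ Reg G ε (univ.image x) ∧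
      |(G.edgeDensity (univ.image x) (univ.image x) : ℝ) - c| ≤ ε := by
    intro x hx
    rw [hE, mem_filter, hE₀, mem_filter] at hx
    exact ⟨hx.1.2.1, hx.1.2.2, hx.2⟩
  set F : ℝ := 3 * L with hF
  have hF0 : 0 < F := by positivity
  have hcard : (t : ℝ) * Real.log n - F * t ≤ Real.log E.card := by
    have h1 : n ^ t ≤ 12 * e * (N : ℝ) ^ t * E.card := by
      have h2 : (E₀.card : ℝ) ≤ 2 * e * E.card := by
        have h3 : (E₀.card : ℝ) = 2 * e * (ε / 2 * E₀.card) := by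
          calc (E₀.card : ℝ) = (ε * e) * E₀.card := by rw [hee, one_mul]
            _ = _ := by ring
        rw [h3]
        gcongr
      calc n ^ t ≤ 6 * (N : ℝ) ^ t * E₀.card := hcount'
        _ ≤ 6 * (N : ℝ) ^ t * (2 * e * E.card) := by gcongr
        _ = _ := by ring
    have h4 := Real.log_le_log (by positivity) h1
    rw [Real.log_pow, Real.log_mul (by positivity) (by positivity),
      Real.log_mul (by positivity) (by positivity), Real.log_pow] at h4
    have h5 : Real.log (12 * e) ≤ 2 * L * t := by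
      have h6 : Real.log (12 * e) ≤ 12 * e := (Real.log_le_sub_one_of_pos (by positivity)).trans
        (by linarith)
      have h7 : 12 * e ≤ e ^ 3 := by nlinarith [sq_nonneg e, mul_pos he0 he0]
      have h8 : (t : ℝ) ≤ 2 * L * t := by nlinarith
      linarith
    have h9 : F * t = 2 * L * t + t * L := by rw [hF]; ring
    linarith
  set M : ℕ := ⌈8 * F * e ^ 2⌉₊ with hM
  have hM1 : 8 * F * e ^ 2 ≤ M := Nat.le_ceil _
  have hM2 : (M : ℝ) < 8 * F * e ^ 2 + 1 := Nat.ceil_lt_add_one (by positivity)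
  have hMε : 8 * F ≤ M * ε ^ 2 := by
    calc 8 * F = 8 * F * (ε * e) ^ 2 := by rw [hee]; ring
      _ = 8 * F * e ^ 2 * ε ^ 2 := by ring
      _ ≤ M * ε ^ 2 := by gcongr
  have hMt : 2 * M + 2 ≤ t := by
    have h1 : (2 * M + 2 : ℝ) ≤ t := by
      have h2 : 60 * (e ^ 2 * L) ≤ e ^ 3 * L := by
        have : 60 * (e ^ 2 * L) ≤ e * (e ^ 2 * L) := by gcongr
        calc 60 * (e ^ 2 * L) ≤ e * (e ^ 2 * L) := this
          _ = _ := by ring
      have h3 : 4 ≤ 12 * (e ^ 2 * L) := by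
        have h5 : (1 : ℝ) ≤ e ^ 2 := one_le_pow₀ (by linarith)
        nlinarith
      rw [hF] at hM2
      nlinarith
    exact_mod_cast h1
  have htε : 4 ≤ ε * t := by
    calc (4 : ℝ) ≤ e ^ 2 := by nlinarith
      _ = (ε * e) * e ^ 2 := by rw [hee, one_mul]
      _ = ε * e ^ 3 := by ring
      _ ≤ ε * t := by gcongr
  have hFF : (4 * F + 1) / ε = (12 * L + 1) / ε := by
    rw [hF]
    ring
  have := local_global G hEne hsym hε (by linarith) hc hc1 hreg hF0 hcard hMε hMt htε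
    (by rw [hFF]; exact hn) hδ hδ1 hεδ
  rw [hFF] at this
  exact this

/-- The hard direction for one tolerance. -/
theorem hard {B δ : ℝ} (hB : 0 < B) (hδ : 0 < δ) (hδ2 : δ < 1 / 2) {A : ℝ} (hA : 3 ≤ A)
    (h : ∃ N : ℕ, 2 ≤ N ∧ (N : ℝ) ≤ 2 ^ ((δ ^ 12 / 2 ^ 14) ^ (-B)) ∧
      ∀ (G : SimpleGraph (Fin N)) [DecidableRel G.Adj],
      ∃ U : Finset (Fin N), Reg G (δ ^ 12 / 2 ^ 14) U ∧
        (δ ^ 12 / 2 ^ 14) ^ (-A) * Real.logb 2 N ≤ U.card) (hV : 0 < Fintype.card V)
    (G : SimpleGraph V) [DecidableRel G.Adj] :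
    ∃ U : Finset V, Reg G δ U ∧
      (2 : ℝ) ^ (-(δ ^ (-(26 * (B + 1) + 6)))) * Fintype.card V ≤ U.card := by
  obtain ⟨N, hN, hNB, H⟩ := h
  set ε : ℝ := δ ^ 12 / 2 ^ 14 with hεd
  have hε : 0 < ε := by positivity
  have hδp : δ ^ 12 ≤ 1 := pow_le_one₀ hδ.le (by linarith)
  have hε1 : ε ≤ 1 / 60 := by
    rw [hεd, div_le_iff₀ (by norm_num)]
    norm_num
    linarith
  have hN2 : (2 : ℝ) ≤ N := by exact_mod_cast hN
  have hN0 : (0 : ℝ) < N := by linarith
  set L : ℝ := Real.log N with hL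
  have hL2 : 1 / 2 ≤ L := by
    have h1 : Real.log 2 ≤ L := Real.log_le_log (by norm_num) hN2
    have := Real.log_two_gt_d9
    linarith
  set e : ℝ := ε⁻¹ with he
  have hee : ε * e = 1 := mul_inv_cancel₀ hε.ne'
  have hei : 60 ≤ e := by
    rw [he, le_inv_comm₀ (by norm_num) hε]
    linarith
  have he0 : 0 < e := by linarith
  have hLB : L ≤ e ^ B := by
    have h1 := Real.log_le_log hN0 hNB
    rw [Real.log_rpow (by norm_num), Real.rpow_neg hε.le, ← Real.inv_rpow hε.le] at h1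
    have h2 := Real.log_two_lt_d9
    have h3 : 0 < e ^ B := by positivity
    have h4 : L ≤ e ^ B * Real.log 2 := h1
    nlinarith
  have heB : 1 ≤ e ^ B := Real.one_le_rpow (by linarith) hB.le
  -- the numerical inequality
  have hnum : (12 * L + 1) / ε + Real.log (4 * e) ≤
      δ ^ (-(26 * (B + 1) + 6)) * Real.log 2 := by
    have h1 : Real.log (4 * e) ≤ 4 * e :=
      (Real.log_le_sub_one_of_pos (by positivity)).trans (by linarith)
    have h2 : (12 * L + 1) / ε = (12 * L + 1) * e := by rw [he, div_eq_mul_inv]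
    have h3 : (12 * L + 1) / ε + Real.log (4 * e) ≤ 17 * (e ^ B * e) := by
      rw [h2]
      nlinarith [mul_le_mul_of_nonneg_right hLB he0.le, mul_le_mul_of_nonneg_right heB he0.le]
    have h4 : e ^ B * e = e ^ (B + 1) := by rw [Real.rpow_add he0, Real.rpow_one]
    have hδi : 2 ≤ δ⁻¹ := by
      rw [le_inv_comm₀ (by norm_num) hδ]
      linarith
    have h5 : e ≤ δ⁻¹ ^ (26 : ℝ) := by
      have h6 : e = 2 ^ 14 * δ⁻¹ ^ 12 := by
        rw [he, hεd, inv_div, inv_pow, div_eq_mul_inv]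
      have h7 : (2 : ℝ) ^ 14 ≤ δ⁻¹ ^ 14 := pow_le_pow_left₀ (by norm_num) hδi 14
      have h8 : δ⁻¹ ^ (26 : ℝ) = δ⁻¹ ^ 14 * δ⁻¹ ^ 12 := by
        rw [← pow_add]
        exact_mod_cast Real.rpow_natCast δ⁻¹ 26
      rw [h6, h8]
      gcongr
    have h9 : e ^ (B + 1) ≤ δ⁻¹ ^ (26 * (B + 1)) := by
      rw [Real.rpow_mul (by positivity)]
      exact Real.rpow_le_rpow he0.le h5 (by linarith)
    have h10 : (64 : ℝ) ≤ δ⁻¹ ^ (6 : ℝ) := by
      have h11 : (2 : ℝ) ^ 6 ≤ δ⁻¹ ^ 6 := pow_le_pow_left₀ (by norm_num) hδi 6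
      have h12 : δ⁻¹ ^ (6 : ℝ) = δ⁻¹ ^ 6 := by exact_mod_cast Real.rpow_natCast δ⁻¹ 6
      rw [h12]
      norm_num at h11 ⊢
      exact h11
    have h13 : δ ^ (-(26 * (B + 1) + 6)) = δ⁻¹ ^ (26 * (B + 1)) * δ⁻¹ ^ (6 : ℝ) := by
      rw [Real.rpow_neg hδ.le, ← Real.inv_rpow hδ.le, Real.rpow_add (by positivity)]
    rw [h13]
    have h14 := Real.log_two_gt_d9
    have h15 : 0 < e ^ (B + 1) := by positivity
    rw [h4] at h3
    calc (12 * L + 1) / ε + Real.log (4 * e) ≤ 17 * e ^ (B + 1) := h3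
      _ ≤ e ^ (B + 1) * 64 * (1 / 2) := by linarith
      _ ≤ δ⁻¹ ^ (26 * (B + 1)) * δ⁻¹ ^ (6 : ℝ) * Real.log 2 := by gcongr; linarith
  have hnum2 : (2 : ℝ) ^ (-(δ ^ (-(26 * (B + 1) + 6)))) ≤
      Real.exp (-((12 * L + 1) / ε)) / (4 * e) := by
    rw [Real.rpow_def_of_pos (by norm_num), div_eq_mul_inv, ← Real.exp_log (by positivity :
      0 < (4 * e)⁻¹), ← Real.exp_add]
    refine Real.exp_le_exp.2 ?_
    rw [Real.log_inv]
    linarith
  set n : ℝ := (Fintype.card V : ℝ) with hnn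
  have hn0 : 0 < n := Nat.cast_pos.2 hV
  rcases le_or_gt (2 * Real.exp ((12 * L + 1) / ε)) (ε * n) with hn | hn
  · obtain ⟨U, hU, hU2⟩ := step G hε hε1 hN (T := ε ^ (-A) * Real.logb 2 N) (by
      have h1 : 0 ≤ Real.logb 2 N := Real.logb_nonneg (by norm_num) (by linarith)
      refine mul_le_mul_of_nonneg_right ?_ h1
      exact Real.rpow_le_rpow_of_exponent_ge hε (by linarith) (by linarith)) H hn hδ
      (by linarith) (by rw [hεd]; linarith)
    refine ⟨U, hU, le_trans ?_ hU2⟩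
    calc (2 : ℝ) ^ (-(δ ^ (-(26 * (B + 1) + 6)))) * n
        ≤ Real.exp (-((12 * L + 1) / ε)) / (4 * e) * n := by gcongr
      _ ≤ Real.exp (-((12 * L + 1) / ε)) / (4 * 1) * n := by gcongr; linarith
      _ = n * Real.exp (-((12 * L + 1) / ε)) / 4 := by ring
  · have : Nonempty V := Fintype.card_pos_iff.1 hV
    obtain ⟨v⟩ := this
    refine ⟨{v}, reg_single G hδ v, ?_⟩
    rw [card_singleton, Nat.cast_one]
    have hexp : Real.exp ((12 * L + 1) / ε) * Real.exp (-((12 * L + 1) / ε)) = 1 := by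
      rw [← Real.exp_add, add_neg_cancel, Real.exp_zero]
    have h1 : n ≤ 2 * e * Real.exp ((12 * L + 1) / ε) := by
      calc n = (ε * n) * e := by
            calc n = (ε * e) * n := by rw [hee, one_mul]
              _ = _ := by ring
        _ ≤ 2 * Real.exp ((12 * L + 1) / ε) * e := by gcongr
        _ = _ := by ring
    calc (2 : ℝ) ^ (-(δ ^ (-(26 * (B + 1) + 6)))) * n
        ≤ Real.exp (-((12 * L + 1) / ε)) / (4 * e) *
          (2 * e * Real.exp ((12 * L + 1) / ε)) := by gcongr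
      _ = Real.exp ((12 * L + 1) / ε) * Real.exp (-((12 * L + 1) / ε)) / 2 := by
          field_simp
          ring
      _ ≤ 1 := by rw [hexp]; norm_num

end Pool.Agent.RLog
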