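import Pool.Agent.RLog.Defs

/-!
# A regular pattern

Paper proof of `pat`. Let `A = I.image x`, `B = J.image x` (subsets of `S = univ.image x`, `#S = t`, `x` injective). The sum is
`∑_(u ∈ A) ∑_(v ∈ B) Kc u v = (d(A, B) - c) #A #B` (`sum_Kc`). If `#A, #B ≥ ε t` it is at most `2 ε #A #B ≤ 2 ε t²` in absolute
value (`|d(A,B) - d(S,S)| ≤ ε`, `|d(S,S) - c| ≤ ε`). Otherwise `#A #B ≤ ε t²` and `|d - c| ≤ 1`.
-/

set_option autoImplicit false
set_option linter.unusedSectionVars false

namespace Pool.Agent.RLog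

open Finset

variable {V : Type} [Fintype V] [DecidableEq V] (G : SimpleGraph V) [DecidableRel G.Adj]

theorem pat {t : ℕ} {x : Fin t → V} (hx : Function.Injective x) {ε c : ℝ} (hε : 0 < ε)
    (hε1 : ε ≤ 1) (hc : 0 ≤ c) (hc1 : c ≤ 1) (hreg : Reg G ε (univ.image x))
    (hd : |(G.edgeDensity (univ.image x) (univ.image x) : ℝ) - c| ≤ ε) (I J : Finset (Fin t)) :
    |∑ i ∈ I, ∑ j ∈ J, Kc G c (x i) (x j)| ≤ 2 * ε * (t : ℝ) ^ 2 := by
  have hsum : ∑ i ∈ I, ∑ j ∈ J, Kc G c (x i) (x j) =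
      ∑ u ∈ I.image x, ∑ v ∈ J.image x, Kc G c u v := by
    rw [Finset.sum_image (fun a _ b _ h => hx h)]
    refine Finset.sum_congr rfl fun i _ => ?_
    rw [Finset.sum_image (fun a _ b _ h => hx h)]
  rw [hsum, sum_Kc]
  have hS : ((univ.image x).card : ℝ) = t := by
    rw [Finset.card_image_of_injective _ hx, Finset.card_univ, Fintype.card_fin]
  have hA1 : ((I.image x).card : ℝ) ≤ t := by
    rw [← hS]
    exact_mod_cast Finset.card_le_card (Finset.image_subset_image (Finset.subset_univ I))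
  have hB1 : ((J.image x).card : ℝ) ≤ t := by
    rw [← hS]
    exact_mod_cast Finset.card_le_card (Finset.image_subset_image (Finset.subset_univ J))
  have hA0 : (0 : ℝ) ≤ (I.image x).card := Nat.cast_nonneg _
  have hB0 : (0 : ℝ) ≤ (J.image x).card := Nat.cast_nonneg _
  have ht0 : (0 : ℝ) ≤ t := Nat.cast_nonneg _
  rw [abs_mul, abs_of_nonneg (mul_nonneg hA0 hB0)]
  by_cases h : ε * (t : ℝ) ≤ (I.image x).card ∧ ε * (t : ℝ) ≤ (J.image x).card
  · have h1 := hreg.2 (I.image x) (Finset.image_subset_image (Finset.subset_univ I)) (J.image x)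
      (Finset.image_subset_image (Finset.subset_univ J)) (by rw [hS]; exact h.1)
      (by rw [hS]; exact h.2)
    have h2 : |(G.edgeDensity (I.image x) (J.image x) : ℝ) - c| ≤ 2 * ε := by
      rw [abs_le] at h1 hd ⊢
      constructor <;> linarith
    calc |(G.edgeDensity (I.image x) (J.image x) : ℝ) - c| *
          (((I.image x).card : ℝ) * ((J.image x).card : ℝ))
        ≤ (2 * ε) * ((t : ℝ) * t) :=
          mul_le_mul h2 (mul_le_mul hA1 hB1 hB0 ht0) (mul_nonneg hA0 hB0) (by linarith)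
      _ = 2 * ε * (t : ℝ) ^ 2 := by ring
  · have h0 : (0 : ℝ) ≤ (G.edgeDensity (I.image x) (J.image x) : ℝ) := by
      exact_mod_cast G.edgeDensity_nonneg _ _
    have h01 : (G.edgeDensity (I.image x) (J.image x) : ℝ) ≤ 1 := by
      exact_mod_cast G.edgeDensity_le_one _ _
    have h2 : |(G.edgeDensity (I.image x) (J.image x) : ℝ) - c| ≤ 1 := by
      rw [abs_le]
      constructor <;> linarith
    have h3 : ((I.image x).card : ℝ) * ((J.image x).card : ℝ) ≤ ε * (t : ℝ) ^ 2 := by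
      rw [not_and_or, not_le, not_le] at h
      rcases h with h | h
      · calc ((I.image x).card : ℝ) * ((J.image x).card : ℝ) ≤ (ε * t) * t :=
              mul_le_mul h.le hB1 hB0 (mul_nonneg hε.le ht0)
          _ = ε * (t : ℝ) ^ 2 := by ring
      · calc ((I.image x).card : ℝ) * ((J.image x).card : ℝ) ≤ t * (ε * t) :=
              mul_le_mul hA1 h.le hB0 ht0
          _ = ε * (t : ℝ) ^ 2 := by ring
    calc |(G.edgeDensity (I.image x) (J.image x) : ℝ) - c| *
          (((I.image x).card : ℝ) * ((J.image x).card : ℝ))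
        ≤ 1 * (ε * (t : ℝ) ^ 2) :=
          mul_le_mul h2 h3 (mul_nonneg hA0 hB0) zero_le_one
      _ ≤ 2 * ε * (t : ℝ) ^ 2 := by nlinarith [mul_nonneg hε.le (sq_nonneg (t : ℝ))]

end Pool.Agent.RLog
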