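import Mathlib

/-!
# Rounding of a multilinear function

Paper proof of `exists_round`. Induction over the set of the coordinates which are not yet `0` or `1` (`Finset.induction_on` on `S`
in: for every `S` and `w ∈ [0,1]^V` with `w v ∈ {0,1}` for `v ∉ S` ...): `F` is affine in the coordinate `v`,
so one of the values at `0` and `1` is at least the value at `w v`.
`mono_affine`: `∏_(v ∈ S) w v` is affine in each coordinate.
-/

set_option autoImplicit false

namespace Pool.Agent.RLog

open Finset

variable {V : Type} [Fintype V] [DecidableEq V]

/-- `F` is affine in each coordinate. -/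
def MAff (F : (V → ℝ) → ℝ) : Prop :=
  ∀ (w : V → ℝ) (v : V), ∃ a b : ℝ, ∀ t : ℝ, F (Function.update w v t) = a + b * t

theorem MAff.mono (S : Finset V) : MAff fun w => ∏ v ∈ S, w v := by
  intro w v
  by_cases hv : v ∈ S
  · refine ⟨0, ∏ x ∈ S \ {v}, w x, fun t => ?_⟩
    show ∏ x ∈ S, Function.update w v t x = _
    rw [Finset.prod_update_of_mem hv]
    ring
  · refine ⟨∏ x ∈ S, w x, 0, fun t => ?_⟩
    show ∏ x ∈ S, Function.update w v t x = _
    rw [Finset.prod_update_of_notMem hv]
    ring

theorem MAff.const_mul {F : (V → ℝ) → ℝ} (hF : MAff F) (c : ℝ) : MAff fun w => c * F w := by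
  intro w v
  obtain ⟨a, b, h⟩ := hF w v
  exact ⟨c * a, c * b, fun t => by show c * F _ = _; rw [h]; ring⟩

theorem MAff.sum {ι : Type*} (T : Finset ι) (F : ι → (V → ℝ) → ℝ) (h : ∀ i ∈ T, MAff (F i)) :
    MAff fun w => ∑ i ∈ T, F i w := by
  classical
  induction T using Finset.induction_on with
  | empty => exact fun w v => ⟨0, 0, fun t => by simp⟩
  | insert i T hi ih =>
    intro w v
    obtain ⟨a, b, h1⟩ := h i (mem_insert_self _ _) w v
    obtain ⟨a', b', h2⟩ := ih (fun j hj => h j (mem_insert_of_mem hj)) w v
    refine ⟨a + a', b + b', fun t => ?_⟩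
    have h2' : ∑ j ∈ T, F j (Function.update w v t) = a' + b' * t := h2 t
    show ∑ j ∈ insert i T, F j (Function.update w v t) = _
    rw [Finset.sum_insert hi, h1, h2']
    ring

theorem exists_round {F : (V → ℝ) → ℝ} (hF : MAff F) (w : V → ℝ) (hw : ∀ v, 0 ≤ w v ∧ w v ≤ 1) :
    ∃ U : Finset V, F w ≤ F (fun v => if v ∈ U then 1 else 0) := by
  have key : ∀ (S : Finset V) (w : V → ℝ), (∀ v, 0 ≤ w v ∧ w v ≤ 1) →
      (∀ v, v ∉ S → w v = 0 ∨ w v = 1) →
      ∃ U : Finset V, F w ≤ F (fun v => if v ∈ U then 1 else 0) := by
    intro S
    induction S using Finset.induction_on with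
    | empty =>
      intro w _ h01
      refine ⟨univ.filter fun v => w v = 1, le_of_eq ?_⟩
      congr 1
      funext v
      by_cases h : w v = 1
      · simp [h]
      · rcases h01 v (notMem_empty v) with h' | h'
        · simp [h']
        · exact absurd h' h
    | insert v S hv ih =>
      intro w hw h01
      obtain ⟨a, b, h⟩ := hF w v
      have hwv : F w = a + b * w v := by
        rw [← h (w v), Function.update_eq_self]
      have step : ∀ t : ℝ, (t = 0 ∨ t = 1) → F w ≤ F (Function.update w v t) →
          ∃ U : Finset V, F w ≤ F (fun v => if v ∈ U then 1 else 0) := by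
        intro t ht hle
        obtain ⟨U, hU⟩ := ih (Function.update w v t)
          (by
            intro u
            by_cases hu : u = v
            · subst hu
              rw [Function.update_self]
              rcases ht with rfl | rfl <;> norm_num
            · rw [Function.update_of_ne hu]
              exact hw u)
          (by
            intro u hu
            by_cases huv : u = v
            · subst huv
              rw [Function.update_self]
              exact ht
            · rw [Function.update_of_ne huv]
              exact h01 u (by simp [huv, hu]))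
        exact ⟨U, hle.trans hU⟩
      rcases le_total 0 b with hb | hb
      · refine step 1 (Or.inr rfl) ?_
        rw [hwv, h 1]
        nlinarith [(hw v).2]
      · refine step 0 (Or.inl rfl) ?_
        rw [hwv, h 0]
        nlinarith [(hw v).1]
  exact key univ w hw fun v hv => absurd (mem_univ v) hv

end Pool.Agent.RLog
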