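import Pool.Agent.RLog.Defs
import Pool.Agent.RLog.Mult

/-!
# From weights to a set

Paper proof. For weights `w` put `T(w) = ∑_(x,z,y,t) w w w w K(x,y) K(z,y) K(x,t) K(z,t)`, `P(w)` the same sum over the quadruples of
different vertices, `e4(w) = ∑_(distinct) w w w w`. All monomials of `P`, `e4` are `∏_(v ∈ {x,z,y,t}) w v` with four different
vertices (`MAff.mono`). The quadruples with a coincidence (six pairs) contribute at most `6 m³` to `T(w)` and `m⁴` (`0 ≤ w ≤ 1`, `|K| ≤ 1`).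
(1) `T(w) ≤ 4 η m⁴`: for fixed `x, y` the sum over `z, t` of `w z w t K(z,t) f(z) g(t)`, `f(z) = K(z,y) = 1_(z~y) - c`,
`g(t) = K(x,t)` likewise: four sums over pairs of sets `B × B'` with coefficients whose absolute values add up to `(1 + c)^2 ≤ 4`, so at most
`4 η m²`; times `∑ w x w y |K(x,y)| ≤ m²`.
(2) `R(w) = 20 η e4(w) - P(w) ≥ 20 η (m⁴ - 6 m³) - 4 η m⁴ - 6 m³ ≥ 10 η m⁴` since `η m ≥ 24`, `η ≤ 1`.
(3) `exists_round`: a set `U`, `u = #U`, with `20 η e4(U) - P(U) ≥ 10 η m⁴ > 0`. `P(U) ≥ - 6 u³` because the full sum `C4 G c U` is `≥ 0`. So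
`20 η u⁴ + 6 u³ ≥ 10 η m⁴`, which forces `u ≥ m / 2` (else the left-hand side is at most `(20/16) η m⁴ + (6/8) m³`). And
`C4 G c U ≤ P(U) + 6 u³ ≤ 20 η e4(U) + 6 u³ ≤ 20 η u⁴ + 6 u³ ≤ 21 η u⁴` (`η u ≥ 12`).
-/

set_option autoImplicit false
set_option linter.unusedSectionVars false

namespace Pool.Agent.RLog

open Finset

variable {V : Type} [Fintype V] [DecidableEq V] (G : SimpleGraph V) [DecidableRel G.Adj]

/-- Nested weighted sum over quadruples. -/
private def Sm (w : V → ℝ) (f : V → V → V → V → ℝ) : ℝ :=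
  ∑ x, w x * ∑ z, w z * ∑ y, w y * ∑ t, w t * f x z y t

private def ii (a b : V) : ℝ := if a = b then 1 else 0

private theorem ii_nonneg (a b : V) : 0 ≤ ii a b := by
  unfold ii
  split_ifs <;> norm_num

private theorem ii_self (a : V) : ii a a = 1 := by simp [ii]

private theorem sum_ii (w : V → ℝ) (b : V) : ∑ a, w a * ii a b = w b := by
  simp [ii]

private theorem Sm_mono {w : V → ℝ} (hw : ∀ v, 0 ≤ w v) {f g : V → V → V → V → ℝ}
    (h : ∀ x z y t, f x z y t ≤ g x z y t) : Sm w f ≤ Sm w g := by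
  unfold Sm
  refine Finset.sum_le_sum fun x _ => mul_le_mul_of_nonneg_left ?_ (hw x)
  refine Finset.sum_le_sum fun z _ => mul_le_mul_of_nonneg_left ?_ (hw z)
  refine Finset.sum_le_sum fun y _ => mul_le_mul_of_nonneg_left ?_ (hw y)
  refine Finset.sum_le_sum fun t _ => mul_le_mul_of_nonneg_left (h x z y t) (hw t)

private theorem Sm_add (w : V → ℝ) (f g : V → V → V → V → ℝ) :
    Sm w (fun x z y t => f x z y t + g x z y t) = Sm w f + Sm w g := by
  unfold Sm
  simp only [mul_add, Finset.sum_add_distrib]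

private theorem Sm_mul (w : V → ℝ) (a : ℝ) (f : V → V → V → V → ℝ) :
    Sm w (fun x z y t => a * f x z y t) = a * Sm w f := by
  unfold Sm
  simp only [Finset.mul_sum]
  refine Finset.sum_congr rfl fun x _ => Finset.sum_congr rfl fun z _ =>
    Finset.sum_congr rfl fun y _ => Finset.sum_congr rfl fun t _ => ?_
  ring

private theorem Sm_one (w : V → ℝ) : Sm w (fun _ _ _ _ => 1) = (∑ v, w v) ^ 4 := by
  unfold Sm
  simp only [mul_one, ← Finset.sum_mul]
  ring

/-- All four vertices are different. -/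
private def DD (x z y t : V) : Prop := x ≠ z ∧ x ≠ y ∧ x ≠ t ∧ z ≠ y ∧ z ≠ t ∧ y ≠ t

private instance (x z y t : V) : Decidable (DD x z y t) := by
  unfold DD
  infer_instance

private theorem nd_le (x z y t : V) : (if DD x z y t then (0 : ℝ) else 1) ≤
    ii z x + ii y x + ii y z + ii t x + ii t z + ii t y := by
  have h1 := ii_nonneg z x
  have h2 := ii_nonneg y x
  have h3 := ii_nonneg y z
  have h4 := ii_nonneg t x
  have h5 := ii_nonneg t z
  have h6 := ii_nonneg t y
  by_cases hD : DD x z y t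
  · rw [if_pos hD]
    linarith
  · rw [if_neg hD]
    unfold DD at hD
    by_cases e1 : x = z
    · have q : ii z x = 1 := by rw [e1, ii_self]
      linarith
    by_cases e2 : x = y
    · have q : ii y x = 1 := by rw [e2, ii_self]
      linarith
    by_cases e3 : x = t
    · have q : ii t x = 1 := by rw [e3, ii_self]
      linarith
    by_cases e4 : z = y
    · have q : ii y z = 1 := by rw [e4, ii_self]
      linarith
    by_cases e5 : z = t
    · have q : ii t z = 1 := by rw [e5, ii_self]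
      linarith
    by_cases e6 : y = t
    · have q : ii t y = 1 := by rw [e6, ii_self]
      linarith
    exact absurd ⟨e1, e2, e3, e4, e5, e6⟩ hD

private theorem Sm_nd {w : V → ℝ} (hw : ∀ v, 0 ≤ w v ∧ w v ≤ 1) {m : ℝ} (hm : ∑ v, w v = m) :
    Sm w (fun x z y t => if DD x z y t then (0 : ℝ) else 1) ≤ 6 * m ^ 3 := by
  have hm0 : 0 ≤ m := by
    rw [← hm]
    exact Finset.sum_nonneg fun v _ => (hw v).1
  refine le_trans (Sm_mono (fun v => (hw v).1) nd_le) ?_
  have hA : ∀ x z y : V, ∑ t, w t * (ii z x + ii y x + ii y z + ii t x + ii t z + ii t y) ≤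
      m * (ii z x + ii y x + ii y z) + 3 := by
    intro x z y
    have e : ∑ t, w t * (ii z x + ii y x + ii y z + ii t x + ii t z + ii t y) =
        m * (ii z x + ii y x + ii y z) + (w x + w z + w y) := by
      have e1 : ∀ t, w t * (ii z x + ii y x + ii y z + ii t x + ii t z + ii t y) =
          w t * (ii z x + ii y x + ii y z) + w t * ii t x + w t * ii t z + w t * ii t y := by
        intro t
        ring
      rw [Finset.sum_congr rfl fun t _ => e1 t]
      rw [Finset.sum_add_distrib, Finset.sum_add_distrib, Finset.sum_add_distrib, ← Finset.sum_mul,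
        sum_ii, sum_ii, sum_ii, hm]
      ring
    rw [e]
    linarith [(hw x).2, (hw z).2, (hw y).2]
  have hB : ∀ x z : V, ∑ y, w y * (m * (ii z x + ii y x + ii y z) + 3) ≤
      m ^ 2 * ii z x + 5 * m := by
    intro x z
    have e : ∑ y, w y * (m * (ii z x + ii y x + ii y z) + 3) =
        m * (m * ii z x + 3) + m * w x + m * w z := by
      have e1 : ∀ y, w y * (m * (ii z x + ii y x + ii y z) + 3) =
          w y * (m * ii z x + 3) + m * (w y * ii y x) + m * (w y * ii y z) := by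
        intro y
        ring
      rw [Finset.sum_congr rfl fun t _ => e1 t]
      rw [Finset.sum_add_distrib, Finset.sum_add_distrib, ← Finset.sum_mul, ← Finset.mul_sum,
        ← Finset.mul_sum, sum_ii, sum_ii, hm]
    rw [e]
    nlinarith [mul_le_mul_of_nonneg_left (hw x).2 hm0, mul_le_mul_of_nonneg_left (hw z).2 hm0]
  have hC : ∀ x : V, ∑ z, w z * (m ^ 2 * ii z x + 5 * m) ≤ 6 * m ^ 2 := by
    intro x
    have e : ∑ z, w z * (m ^ 2 * ii z x + 5 * m) = m ^ 2 * w x + m * (5 * m) := by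
      have e1 : ∀ z, w z * (m ^ 2 * ii z x + 5 * m) = m ^ 2 * (w z * ii z x) + w z * (5 * m) := by
        intro z
        ring
      rw [Finset.sum_congr rfl fun t _ => e1 t]
      rw [Finset.sum_add_distrib, ← Finset.sum_mul, ← Finset.mul_sum, sum_ii, hm]
    rw [e]
    nlinarith [mul_le_mul_of_nonneg_left (hw x).2 (sq_nonneg m)]
  unfold Sm
  calc ∑ x, w x * ∑ z, w z * ∑ y, w y * ∑ t, w t *
        (ii z x + ii y x + ii y z + ii t x + ii t z + ii t y)
      ≤ ∑ x, w x * ∑ z, w z * ∑ y, w y * (m * (ii z x + ii y x + ii y z) + 3) := by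
        refine Finset.sum_le_sum fun x _ => mul_le_mul_of_nonneg_left ?_ (hw x).1
        refine Finset.sum_le_sum fun z _ => mul_le_mul_of_nonneg_left ?_ (hw z).1
        refine Finset.sum_le_sum fun y _ => mul_le_mul_of_nonneg_left (hA x z y) (hw y).1
    _ ≤ ∑ x, w x * ∑ z, w z * (m ^ 2 * ii z x + 5 * m) := by
        refine Finset.sum_le_sum fun x _ => mul_le_mul_of_nonneg_left ?_ (hw x).1
        refine Finset.sum_le_sum fun z _ => mul_le_mul_of_nonneg_left (hB x z) (hw z).1
    _ ≤ ∑ x, w x * (6 * m ^ 2) := by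
        refine Finset.sum_le_sum fun x _ => mul_le_mul_of_nonneg_left (hC x) (hw x).1
    _ = 6 * m ^ 3 := by
        rw [← Finset.sum_mul, hm]
        ring

/-- The product over the four sides of the quadrilateral. -/
private def KK (c : ℝ) (x z y t : V) : ℝ :=
  Kc G c x y * Kc G c z y * (Kc G c x t * Kc G c z t)

private theorem KK_abs {c : ℝ} (hc : 0 ≤ c) (hc1 : c ≤ 1) (x z y t : V) : |KK G c x z y t| ≤ 1 := by
  unfold KK
  rw [abs_mul, abs_mul, abs_mul]
  have h1 := Kc_abs G hc hc1 x y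
  have h2 := Kc_abs G hc hc1 z y
  have h3 := Kc_abs G hc hc1 x t
  have h4 := Kc_abs G hc hc1 z t
  have a1 : |Kc G c x y| * |Kc G c z y| ≤ 1 := mul_le_one₀ h1 (abs_nonneg _) h2
  have a2 : |Kc G c x t| * |Kc G c z t| ≤ 1 := mul_le_one₀ h3 (abs_nonneg _) h4
  exact mul_le_one₀ a1 (mul_nonneg (abs_nonneg _) (abs_nonneg _)) a2

private theorem inner_le {c : ℝ} (hc : 0 ≤ c) (hc1 : c ≤ 1) {w : V → ℝ} {η m : ℝ}
    (hcut : ∀ B B' : Finset V, |∑ x ∈ B, ∑ y ∈ B', w x * w y * Kc G c x y| ≤ η * m ^ 2)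
    (x y : V) :
    |∑ z, w z * ∑ t, w t * (Kc G c z t * (Kc G c z y * Kc G c x t))| ≤ 4 * (η * m ^ 2) := by
  classical
  set B : Finset V := univ.filter fun z => G.Adj z y with hB
  set B' : Finset V := univ.filter fun t => G.Adj x t with hB'
  have e : ∑ z, w z * ∑ t, w t * (Kc G c z t * (Kc G c z y * Kc G c x t)) =
      (∑ z ∈ B, ∑ t ∈ B', w z * w t * Kc G c z t) - c * (∑ z ∈ B, ∑ t, w z * w t * Kc G c z t)
      - c * (∑ z, ∑ t ∈ B', w z * w t * Kc G c z t) + c ^ 2 * ∑ z, ∑ t, w z * w t * Kc G c z t := by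
    have e1 : (∑ z ∈ B, ∑ t ∈ B', w z * w t * Kc G c z t) =
        ∑ z, ∑ t, (if G.Adj z y then 1 else 0) * (if G.Adj x t then 1 else 0) *
          (w z * w t * Kc G c z t) := by
      rw [hB, hB', Finset.sum_filter]
      refine Finset.sum_congr rfl fun z _ => ?_
      by_cases h : G.Adj z y
      · simp only [h, if_true, one_mul]
        rw [Finset.sum_filter]
        refine Finset.sum_congr rfl fun t _ => ?_
        by_cases h' : G.Adj x t
        · simp [h']
        · simp [h']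
      · simp [h]
    have e2 : (∑ z ∈ B, ∑ t, w z * w t * Kc G c z t) =
        ∑ z, ∑ t, (if G.Adj z y then 1 else 0) * (w z * w t * Kc G c z t) := by
      rw [hB, Finset.sum_filter]
      refine Finset.sum_congr rfl fun z _ => ?_
      by_cases h : G.Adj z y
      · simp [h]
      · simp [h]
    have e3 : (∑ z, ∑ t ∈ B', w z * w t * Kc G c z t) =
        ∑ z, ∑ t, (if G.Adj x t then 1 else 0) * (w z * w t * Kc G c z t) := by
      refine Finset.sum_congr rfl fun z _ => ?_
      rw [hB', Finset.sum_filter]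
      refine Finset.sum_congr rfl fun t _ => ?_
      by_cases h' : G.Adj x t
      · simp [h']
      · simp [h']
    rw [e1, e2, e3]
    simp only [Finset.mul_sum]
    rw [← Finset.sum_sub_distrib, ← Finset.sum_sub_distrib, ← Finset.sum_add_distrib]
    refine Finset.sum_congr rfl fun z _ => ?_
    rw [← Finset.sum_sub_distrib, ← Finset.sum_sub_distrib, ← Finset.sum_add_distrib]
    refine Finset.sum_congr rfl fun t _ => ?_
    have k1 : Kc G c z y = (if G.Adj z y then 1 else 0) - c := rfl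
    have k2 : Kc G c x t = (if G.Adj x t then 1 else 0) - c := rfl
    rw [k1, k2]
    ring
  rw [e]
  have h1 := hcut B B'
  have h2 := hcut B univ
  have h3 := hcut univ B'
  have h4 := hcut univ univ
  have hn : 0 ≤ η * m ^ 2 := le_trans (abs_nonneg _) h1
  rw [abs_le] at h1 h2 h3 h4 ⊢
  have c2 : c ^ 2 ≤ 1 := by nlinarith
  have c20 : 0 ≤ c ^ 2 := sq_nonneg c
  have m2a := mul_le_mul_of_nonneg_left h2.1 hc
  have m2b := mul_le_mul_of_nonneg_left h2.2 hc
  have m3a := mul_le_mul_of_nonneg_left h3.1 hc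
  have m3b := mul_le_mul_of_nonneg_left h3.2 hc
  have m4a := mul_le_mul_of_nonneg_left h4.1 c20
  have m4b := mul_le_mul_of_nonneg_left h4.2 c20
  have n1 := mul_le_mul_of_nonneg_right hc1 hn
  have n2 := mul_le_mul_of_nonneg_right c2 hn
  constructor
  · nlinarith
  · nlinarith

private theorem Sm_KK {c : ℝ} (hc : 0 ≤ c) (hc1 : c ≤ 1) {w : V → ℝ} (hw : ∀ v, 0 ≤ w v)
    {η m : ℝ} (hm : ∑ v, w v = m)
    (hcut : ∀ B B' : Finset V, |∑ x ∈ B, ∑ y ∈ B', w x * w y * Kc G c x y| ≤ η * m ^ 2) :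
    Sm w (KK G c) ≤ 4 * η * m ^ 4 := by
  have e : Sm w (KK G c) = ∑ x, w x * ∑ y, w y * (Kc G c x y *
      ∑ z, w z * ∑ t, w t * (Kc G c z t * (Kc G c z y * Kc G c x t))) := by
    unfold Sm
    refine Finset.sum_congr rfl fun x _ => ?_
    congr 1
    simp only [Finset.mul_sum]
    rw [Finset.sum_comm]
    refine Finset.sum_congr rfl fun y _ => Finset.sum_congr rfl fun z _ =>
      Finset.sum_congr rfl fun t _ => ?_
    unfold KK
    ring
  rw [e]
  have hb : ∀ x y : V, Kc G c x y *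
      ∑ z, w z * ∑ t, w t * (Kc G c z t * (Kc G c z y * Kc G c x t)) ≤ 4 * (η * m ^ 2) := by
    intro x y
    refine le_trans (le_abs_self _) ?_
    rw [abs_mul]
    calc |Kc G c x y| * |∑ z, w z * ∑ t, w t * (Kc G c z t * (Kc G c z y * Kc G c x t))|
        ≤ 1 * (4 * (η * m ^ 2)) :=
          mul_le_mul (Kc_abs G hc hc1 x y) (inner_le G hc hc1 hcut x y) (abs_nonneg _) zero_le_one
      _ = 4 * (η * m ^ 2) := one_mul _
  calc ∑ x, w x * ∑ y, w y * (Kc G c x y *
        ∑ z, w z * ∑ t, w t * (Kc G c z t * (Kc G c z y * Kc G c x t)))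
      ≤ ∑ x, w x * ∑ y, w y * (4 * (η * m ^ 2)) := by
        refine Finset.sum_le_sum fun x _ => mul_le_mul_of_nonneg_left ?_ (hw x)
        exact Finset.sum_le_sum fun y _ => mul_le_mul_of_nonneg_left (hb x y) (hw y)
    _ = 4 * η * m ^ 4 := by
        simp only [← Finset.sum_mul, hm]
        ring

private theorem MAff_Sm (f : V → V → V → V → ℝ) (hf : ∀ x z y t, ¬ DD x z y t → f x z y t = 0) :
    MAff fun w => Sm w f := by
  have e : (fun w : V → ℝ => Sm w f) = fun w => ∑ x, ∑ z, ∑ y, ∑ t,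
      f x z y t * ∏ v ∈ ({x, z, y, t} : Finset V), w v := by
    funext w
    unfold Sm
    simp only [Finset.mul_sum]
    refine Finset.sum_congr rfl fun x _ => Finset.sum_congr rfl fun z _ =>
      Finset.sum_congr rfl fun y _ => Finset.sum_congr rfl fun t _ => ?_
    by_cases h : DD x z y t
    · obtain ⟨h1, h2, h3, h4, h5, h6⟩ := h
      rw [Finset.prod_insert (by simp [h1, h2, h3]), Finset.prod_insert (by simp [h4, h5]),
        Finset.prod_insert (by simp [h6]), Finset.prod_singleton]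
      ring
    · rw [hf x z y t h]
      ring
  rw [e]
  refine MAff.sum _ _ fun x _ => MAff.sum _ _ fun z _ => MAff.sum _ _ fun y _ =>
    MAff.sum _ _ fun t _ => ?_
  exact MAff.const_mul (MAff.mono _) _

private theorem Sm_ind (c : ℝ) (U : Finset V) :
    Sm (fun v => if v ∈ U then (1 : ℝ) else 0) (KK G c) = C4 G c U := by
  unfold Sm C4
  simp only [ite_mul, one_mul, zero_mul, Finset.sum_ite_mem, Finset.univ_inter]
  refine Finset.sum_congr rfl fun x _ => Finset.sum_congr rfl fun z _ => ?_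
  rw [sq, Finset.sum_mul_sum]
  rfl

theorem round {c : ℝ} (hc : 0 ≤ c) (hc1 : c ≤ 1) {w : V → ℝ} (hw : ∀ v, 0 ≤ w v ∧ w v ≤ 1)
    {η m : ℝ} (hη : 0 < η) (hη1 : η ≤ 1) (hm : ∑ v, w v = m) (hmη : 24 ≤ η * m)
    (hcut : ∀ B B' : Finset V, |∑ x ∈ B, ∑ y ∈ B', w x * w y * Kc G c x y| ≤ η * m ^ 2) :
    ∃ U : Finset V, m / 2 ≤ U.card ∧ C4 G c U ≤ 21 * η * (U.card : ℝ) ^ 4 := by
  have hm24 : 24 ≤ m := by nlinarith
  have hm0 : 0 < m := by linarith
  -- the function to be rounded
  have key : ∀ (w' : V → ℝ) (m' : ℝ), (∀ v, 0 ≤ w' v ∧ w' v ≤ 1) → ∑ v, w' v = m' →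
      |Sm w' (fun x z y t => if DD x z y t then KK G c x z y t else 0) - Sm w' (KK G c)|
        ≤ 6 * m' ^ 3 ∧
      m' ^ 4 - 6 * m' ^ 3 ≤ Sm w' (fun x z y t => if DD x z y t then (1 : ℝ) else 0) ∧
      Sm w' (fun x z y t => if DD x z y t then (1 : ℝ) else 0) ≤ m' ^ 4 := by
    intro w' m' hw' hm'
    have hN := Sm_nd hw' hm'
    have hN0 : 0 ≤ Sm w' (fun x z y t => if DD x z y t then (0 : ℝ) else 1) := by
      have h0 : Sm w' (fun _ _ _ _ => (0 : ℝ)) = 0 := by simp [Sm]
      have h1 : Sm w' (fun _ _ _ _ => (0 : ℝ)) ≤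
          Sm w' (fun x z y t => if DD x z y t then (0 : ℝ) else 1) := by
        refine Sm_mono (fun v => (hw' v).1) fun x z y t => ?_
        split_ifs <;> norm_num
      rwa [h0] at h1
    have hsum : Sm w' (fun x z y t => if DD x z y t then (1 : ℝ) else 0) +
        Sm w' (fun x z y t => if DD x z y t then (0 : ℝ) else 1) = m' ^ 4 := by
      rw [← Sm_add, ← hm', ← Sm_one]
      congr 1
      funext x z y t
      split_ifs <;> norm_num
    have hK1 : Sm w' (fun x z y t => if DD x z y t then KK G c x z y t else 0) ≤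
        Sm w' (KK G c) + Sm w' (fun x z y t => if DD x z y t then (0 : ℝ) else 1) := by
      rw [← Sm_add]
      refine Sm_mono (fun v => (hw' v).1) fun x z y t => ?_
      have := (abs_le.1 (KK_abs G hc hc1 x z y t)).1
      split_ifs <;> linarith
    have hK2 : Sm w' (KK G c) ≤
        Sm w' (fun x z y t => if DD x z y t then KK G c x z y t else 0) +
        Sm w' (fun x z y t => if DD x z y t then (0 : ℝ) else 1) := by
      rw [← Sm_add]
      refine Sm_mono (fun v => (hw' v).1) fun x z y t => ?_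
      have := (abs_le.1 (KK_abs G hc hc1 x z y t)).2
      split_ifs <;> linarith
    refine ⟨?_, by linarith, by linarith⟩
    rw [abs_le]
    constructor <;> linarith
  set R : (V → ℝ) → ℝ := fun w' => Sm w' fun x z y t =>
    20 * η * (if DD x z y t then (1 : ℝ) else 0) +
      (-1) * (if DD x z y t then KK G c x z y t else 0) with hR
  have hRe : ∀ w' : V → ℝ, R w' =
      20 * η * Sm w' (fun x z y t => if DD x z y t then (1 : ℝ) else 0) -
      Sm w' (fun x z y t => if DD x z y t then KK G c x z y t else 0) := by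
    intro w'
    simp only [hR]
    rw [Sm_add, Sm_mul, Sm_mul]
    ring
  have hRM : MAff R := by
    refine MAff_Sm _ fun x z y t h => ?_
    simp [h]
  obtain ⟨U, hU⟩ := exists_round hRM w hw
  set u : ℝ := (U.card : ℝ) with hu
  have hu0 : 0 ≤ u := by positivity
  obtain ⟨k1, k2, k3⟩ := key w m hw hm
  have hT := Sm_KK G hc hc1 (fun v => (hw v).1) hm hcut
  have hwU : ∀ v : V, 0 ≤ (fun v => if v ∈ U then (1 : ℝ) else 0) v ∧
      (fun v => if v ∈ U then (1 : ℝ) else 0) v ≤ 1 := by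
    intro v
    dsimp only
    split_ifs <;> norm_num
  have hmU : ∑ v, (fun v => if v ∈ U then (1 : ℝ) else 0) v = u := by
    simp [hu]
  obtain ⟨j1, j2, j3⟩ := key _ u hwU hmU
  rw [Sm_ind] at j1
  have hC4 : 0 ≤ C4 G c U := by
    unfold C4
    exact Finset.sum_nonneg fun x _ => Finset.sum_nonneg fun z _ => sq_nonneg _
  rw [hRe, hRe] at hU
  rw [abs_le] at k1 j1
  -- m ^ 3 <= eta m ^ 4 / 24
  have hm3 : 24 * m ^ 3 ≤ η * m ^ 4 := by
    have : 0 ≤ m ^ 3 := by positivity
    nlinarith [mul_le_mul_of_nonneg_right hmη this]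
  have hR1 : 10 * η * m ^ 4 ≤
      20 * η * Sm w (fun x z y t => if DD x z y t then (1 : ℝ) else 0) -
      Sm w (fun x z y t => if DD x z y t then KK G c x z y t else 0) := by
    have a1 : 20 * η * (m ^ 4 - 6 * m ^ 3) ≤
        20 * η * Sm w (fun x z y t => if DD x z y t then (1 : ℝ) else 0) :=
      mul_le_mul_of_nonneg_left k2 (by positivity)
    have a2 : η * (24 * m ^ 3) ≤ 1 * (η * m ^ 4) := by
      have hp : 0 ≤ η * m ^ 4 := by positivity
      calc η * (24 * m ^ 3) ≤ η * (η * m ^ 4) := mul_le_mul_of_nonneg_left hm3 hη.le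
        _ ≤ 1 * (η * m ^ 4) := mul_le_mul_of_nonneg_right hη1 hp
    have hp : 0 ≤ η * m ^ 4 := by positivity
    linarith [k1.1, k1.2]
  have hU1 : 10 * η * m ^ 4 ≤ 20 * η * u ^ 4 + 6 * u ^ 3 := by
    have a1 : 20 * η * Sm (fun v => if v ∈ U then (1 : ℝ) else 0)
        (fun x z y t => if DD x z y t then (1 : ℝ) else 0) ≤ 20 * η * u ^ 4 :=
      mul_le_mul_of_nonneg_left j3 (by positivity)
    linarith [j1.1, j1.2]
  have hum : m / 2 ≤ u := by
    by_contra hlt
    push Not at hlt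
    have b4 : u ^ 4 ≤ (m / 2) ^ 4 := pow_le_pow_left₀ hu0 hlt.le 4
    have b3 : u ^ 3 ≤ (m / 2) ^ 3 := pow_le_pow_left₀ hu0 hlt.le 3
    have c4 : 20 * η * u ^ 4 ≤ 20 * η * (m / 2) ^ 4 := mul_le_mul_of_nonneg_left b4 (by positivity)
    have hp : 0 < η * m ^ 4 := by positivity
    have e4 : 20 * η * (m / 2) ^ 4 = (20 / 16) * (η * m ^ 4) := by ring
    have e3 : (m / 2) ^ 3 = m ^ 3 / 8 := by ring
    rw [e3] at b3
    rw [e4] at c4
    linarith
  refine ⟨U, hum, ?_⟩
  have hηu : 12 ≤ η * u := by nlinarith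
  have hu3 : 12 * u ^ 3 ≤ η * u ^ 4 := by
    have : 0 ≤ u ^ 3 := by positivity
    nlinarith [mul_le_mul_of_nonneg_right hηu this]
  have a1 : 20 * η * Sm (fun v => if v ∈ U then (1 : ℝ) else 0)
      (fun x z y t => if DD x z y t then (1 : ℝ) else 0) ≤ 20 * η * u ^ 4 :=
    mul_le_mul_of_nonneg_left j3 (by positivity)
  have hp : 0 ≤ η * m ^ 4 := by positivity
  have hp' : 0 ≤ u ^ 3 := by positivity
  linarith [j1.1, j1.2]

end Pool.Agent.RLog
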