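import Pool.Agent.RLog.Ent
import Pool.Agent.RLog.Pat
import Pool.Agent.RLog.Round
import Pool.Agent.RLog.CFour

/-!
# From many regular tuples to a regular set
-/

set_option autoImplicit false
set_option linter.unusedSectionVars false

namespace Pool.Agent.RLog

open Finset

variable {V : Type} [Fintype V] [DecidableEq V] (G : SimpleGraph V) [DecidableRel G.Adj]

theorem local_global {t : ℕ} {E : Finset (Fin t → V)} (hE : E.Nonempty)
    (hsym : ∀ x ∈ E, ∀ σ : Equiv.Perm (Fin t), x ∘ σ ∈ E) {ε c F : ℝ} (hε : 0 < ε)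
    (hε1 : ε ≤ 1 / 40) (hc : 0 ≤ c) (hc1 : c ≤ 1)
    (hreg : ∀ x ∈ E, Function.Injective x ∧ Reg G ε (univ.image x) ∧
      |(G.edgeDensity (univ.image x) (univ.image x) : ℝ) - c| ≤ ε)
    (hF : 0 < F) (hcard : (t : ℝ) * Real.log (Fintype.card V) - F * t ≤ Real.log E.card) {M : ℕ}
    (hM : 8 * F ≤ M * ε ^ 2) (hMt : 2 * M + 2 ≤ t) (ht : 4 ≤ ε * t)
    (hn : 2 * Real.exp ((4 * F + 1) / ε) ≤ ε * Fintype.card V) {δ : ℝ} (hδ : 0 < δ) (hδ1 : δ ≤ 1)
    (hεδ : 13440 * ε ≤ δ ^ 12) :
    ∃ U : Finset V, Reg G δ U ∧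
      Fintype.card V * Real.exp (-((4 * F + 1) / ε)) / 4 ≤ U.card := by
  classical
  have hM1 : 1 ≤ M := by
    by_contra h
    have h0 : M = 0 := by omega
    rw [h0] at hM
    norm_num at hM
    linarith
  have hM0 : (0 : ℝ) < M := by exact_mod_cast hM1
  have ht0 : (0 : ℝ) < t := by
    have : 0 < t := by omega
    exact_mod_cast this
  obtain ⟨ν, hν0, hν1, hνD, hνB⟩ := exists_law G hE hsym hc hc1 (a := 2 * ε * (t : ℝ) ^ 2)
    (by positivity) (fun x hx I J => pat G (hreg x hx).1 hε (by linarith) hc hc1 (hreg x hx).2.1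
      (hreg x hx).2.2 I J) hF hcard hM1 hMt
  have hb : 4 * (2 * ε * (t : ℝ) ^ 2 + t) / (t : ℝ) ^ 2 + √(8 * F / M) ≤ 10 * ε := by
    have h1 : 4 * (2 * ε * (t : ℝ) ^ 2 + t) / (t : ℝ) ^ 2 ≤ 9 * ε := by
      rw [div_le_iff₀ (by positivity)]
      nlinarith
    have h2 : √(8 * F / M) ≤ ε := by
      rw [Real.sqrt_le_left hε.le, div_le_iff₀ hM0]
      linarith
    linarith
  set K : ℝ := (4 * F + 1) / ε with hK
  have hK0 : 0 < K := by positivity
  have htr := trunc hν0 hν1 hK0 hνD
  have hKε : (4 * F + 1) / K = ε := by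
    rw [hK]
    field_simp
  rw [hKε] at htr
  set n : ℝ := (Fintype.card V : ℝ) with hnn
  have hn0 : 0 < n := by
    have h1 := Real.exp_pos K
    have h2 : 0 < ε * n := by linarith
    exact pos_of_mul_pos_right h2 hε.le
  set A : Finset V := univ.filter fun v => ¬ Real.exp K < n * ν v with hA
  set w : V → ℝ := fun v => if v ∈ A then n * Real.exp (-K) * ν v else 0 with hw
  have hcoef : 0 < n * Real.exp (-K) := by positivity
  have hw01 : ∀ v, 0 ≤ w v ∧ w v ≤ 1 := by
    intro v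
    simp only [hw]
    split_ifs with h
    · refine ⟨mul_nonneg hcoef.le (hν0 v), ?_⟩
      rw [hA, mem_filter] at h
      have h1 := not_lt.1 h.2
      calc n * Real.exp (-K) * ν v = Real.exp (-K) * (n * ν v) := by ring
        _ ≤ Real.exp (-K) * Real.exp K := by gcongr
        _ = 1 := by rw [← Real.exp_add, neg_add_cancel, Real.exp_zero]
    · exact ⟨le_refl _, zero_le_one⟩
  have hνA : 1 - ε ≤ ∑ v ∈ A, ν v := by
    have h1 := sum_filter_add_sum_filter_not univ (fun v => Real.exp K < n * ν v) ν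
    rw [hν1] at h1
    rw [hA]
    linarith
  have hsumw : ∑ v, w v = n * Real.exp (-K) * ∑ v ∈ A, ν v := by
    simp only [hw]
    rw [← sum_filter, filter_mem_eq_inter, univ_inter, mul_sum]
  set m : ℝ := ∑ v, w v with hm
  have hm1 : n * Real.exp (-K) / 2 ≤ m := by
    rw [hsumw]
    nlinarith
  have hcut : ∀ B B' : Finset V, |∑ x ∈ B, ∑ y ∈ B', w x * w y * Kc G c x y| ≤
      40 * ε * m ^ 2 := by
    intro B B'
    have e1 : ∑ x ∈ B, ∑ y ∈ B', w x * w y * Kc G c x y = (n * Real.exp (-K)) ^ 2 *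
        ∑ x ∈ B ∩ A, ∑ y ∈ B' ∩ A, ν x * ν y * Kc G c x y := by
      rw [mul_sum]
      simp only [mul_sum]
      have e2 : ∀ x, ∑ y ∈ B', w x * w y * Kc G c x y = if x ∈ A then
          ∑ y ∈ B' ∩ A, (n * Real.exp (-K)) ^ 2 * (ν x * ν y * Kc G c x y) else 0 := by
        intro x
        split_ifs with hx
        · rw [← filter_mem_eq_inter, sum_filter]
          refine sum_congr rfl fun y _ => ?_
          simp only [hw, if_pos hx]
          split_ifs
          · ring
          · ring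
        · refine sum_eq_zero fun y _ => ?_
          simp only [hw, if_neg hx, zero_mul]
      simp only [e2]
      rw [← sum_filter, filter_mem_eq_inter]
    rw [e1, abs_mul, abs_of_nonneg (by positivity)]
    have h1 := (hνB (B ∩ A) (B' ∩ A)).trans hb
    calc (n * Real.exp (-K)) ^ 2 * |∑ x ∈ B ∩ A, ∑ y ∈ B' ∩ A, ν x * ν y * Kc G c x y|
        ≤ (2 * m) ^ 2 * (10 * ε) := by
          have h2 : n * Real.exp (-K) ≤ 2 * m := by linarith
          gcongr
      _ = 40 * ε * m ^ 2 := by ring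
  have hexp : Real.exp K * Real.exp (-K) = 1 := by
    rw [← Real.exp_add, add_neg_cancel, Real.exp_zero]
  have hmη : 24 ≤ 40 * ε * m := by
    have h1 : 2 ≤ ε * (n * Real.exp (-K)) := by
      calc (2 : ℝ) = 2 * Real.exp K * Real.exp (-K) := by rw [mul_assoc, hexp, mul_one]
        _ ≤ ε * n * Real.exp (-K) := by gcongr
        _ = _ := by ring
    have h2 : ε * (n * Real.exp (-K) / 2) ≤ ε * m := by gcongr
    linarith
  obtain ⟨U, hU1, hU2⟩ := round G hc hc1 hw01 (η := 40 * ε) (by positivity) (by linarith) rfl hmη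
    hcut
  have hm0 : 0 < m := by
    have : 0 < 40 * ε * m := by linarith
    exact pos_of_mul_pos_right this (by positivity)
  have hUne : U.Nonempty := by
    rw [← card_pos]
    have : (0 : ℝ) < U.card := by linarith
    exact_mod_cast this
  refine ⟨U, reg_of_c4 G hUne hδ hδ1 (hU2.trans ?_), ?_⟩
  · have : 21 * (40 * ε) ≤ δ ^ 12 / 16 := by linarith
    gcongr
  · linarith

end Pool.Agent.RLog
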